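import Pool.Agent.Helper51.Sagbi.Lead

/-!
# The augmentation of the free algebra

Helper file for MP_0d1f08_al.
-/

set_option autoImplicit false

namespace Pool.Agent.Helper51.Sagbi

open FreeAlgebra

variable {K : Type} [Field K] {X : Type}

/-- The set `A` has finite codimension: the free algebra is `A + V` with `V` finite-dimensional. -/
def FinCodim (A : Set (FreeAlgebra K X)) : Prop :=
  ∃ V : Submodule K (FreeAlgebra K X), FiniteDimensional K V ∧
    ∀ x : FreeAlgebra K X, ∃ a ∈ A, ∃ v ∈ V, x = a + v

/-- Every nonempty word has a power in the ideal `I`. -/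
def WordsNil (I : TwoSidedIdeal (FreeAlgebra K X)) : Prop :=
  ∀ w : FreeMonoid X, w ≠ 1 → ∃ m : ℕ, 0 < m ∧ mono K w ^ m ∈ I

/-- The subalgebra without unit generated by `S`. -/
def subalg (S : Set (FreeAlgebra K X)) : NonUnitalSubalgebra K (FreeAlgebra K X) :=
  NonUnitalAlgebra.adjoin K S

/-- Every leading word of an element of the subalgebra generated by `S` is a product of leading words of
elements of `S`. -/
def IsSagbi (r : FreeMonoid X → FreeMonoid X → Prop) (S : Set (FreeAlgebra K X)) : Prop :=
  ∀ w ∈ leads r (subalg S : Set (FreeAlgebra K X)), w ∈ KStar.kstar (leads r S)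

/-- All elements of `S` have zero constant term. -/
def AugZero (S : Set (FreeAlgebra K X)) : Prop :=
  ∀ s ∈ S, FreeAlgebra.lift K (0 : X → K) s = 0

lemma aug_mono (w : FreeMonoid X) (hw : w ≠ 1) :
    FreeAlgebra.lift K (0 : X → K) (mono K w) = 0 := by
  induction w using FreeMonoid.casesOn with
  | one => exact absurd rfl hw
  | of_mul x w =>
    rw [mono_mul, map_mul]
    have : FreeAlgebra.lift K (0 : X → K) (mono K (FreeMonoid.of x)) = 0 := by
      simp [mono]
    rw [this, zero_mul]

lemma aug_eq (x : FreeAlgebra K X) :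
    FreeAlgebra.lift K (0 : X → K) x = (basisFreeMonoid K X).repr x 1 := by
  classical
  have h : (FreeAlgebra.lift K (0 : X → K)).toLinearMap
      = (Finsupp.lapply 1) ∘ₗ (basisFreeMonoid K X).repr.toLinearMap := by
    apply (basisFreeMonoid K X).ext
    intro w
    by_cases hw : w = 1
    · subst hw
      simp [basis_eq_mono, mono_one]
      rw [← mono_one (K := K) (X := X), ← basis_eq_mono, Module.Basis.repr_self]
      simp
    · simp only [AlgHom.toLinearMap_apply, LinearMap.comp_apply, LinearEquiv.coe_coe,
        Module.Basis.repr_self, Finsupp.lapply_apply]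
      rw [basis_eq_mono, aug_mono w hw, Finsupp.single_eq_of_ne (Ne.symm hw)]
  exact LinearMap.congr_fun h x

lemma aug_adjoin {S : Set (FreeAlgebra K X)}
    (hS : ∀ s ∈ S, FreeAlgebra.lift K (0 : X → K) s = 0) {a : FreeAlgebra K X}
    (ha : a ∈ NonUnitalAlgebra.adjoin K S) : FreeAlgebra.lift K (0 : X → K) a = 0 := by
  induction ha using NonUnitalAlgebra.adjoin_induction with
  | mem s hs => exact hS s hs
  | add x y _ _ hx hy => rw [map_add, hx, hy, add_zero]
  | zero => exact map_zero _
  | mul x y _ _ hx hy => rw [map_mul, hx, zero_mul]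
  | smul c x _ hx => rw [map_smul, hx, smul_zero]

end Pool.Agent.Helper51.Sagbi
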