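import Mathlib

/-!
# Subspaces of free algebras whose leading words form a regular language

Helper file for MP_0d1f08_al.
-/

set_option autoImplicit false

namespace Pool.Agent.Helper51.Sagbi

open FreeAlgebra

variable {K : Type} [Field K] {X : Type}

/-- The words occurring in `f` (with nonzero coefficient). -/
noncomputable def supp (f : FreeAlgebra K X) : Finset (FreeMonoid X) :=
  ((basisFreeMonoid K X).repr f).support

/-- The monomial of a word. -/
noncomputable def mono (K : Type) [Field K] {X : Type} (w : FreeMonoid X) : FreeAlgebra K X :=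
  FreeMonoid.lift (FreeAlgebra.ι K) w

/-- `w` is the leading word of `f` for the order `r`. -/
def IsLead (r : FreeMonoid X → FreeMonoid X → Prop) (f : FreeAlgebra K X) (w : FreeMonoid X) :
    Prop :=
  w ∈ supp f ∧ ∀ v ∈ supp f, v ≠ w → r v w

/-- The language of all leading words of elements of `A`. -/
def leads (r : FreeMonoid X → FreeMonoid X → Prop) (A : Set (FreeAlgebra K X)) : Language X :=
  {w | ∃ a ∈ A, IsLead r a (FreeMonoid.ofList w)}

lemma mem_leads {r : FreeMonoid X → FreeMonoid X → Prop} {A : Set (FreeAlgebra K X)}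
    {w : List X} : w ∈ leads r A ↔ ∃ a ∈ A, IsLead r a (FreeMonoid.ofList w) := Iff.rfl

lemma basis_eq_mono (w : FreeMonoid X) : basisFreeMonoid K X w = mono K w := by
  unfold basisFreeMonoid mono
  rw [Module.Basis.map_apply]
  simp only [Finsupp.coe_basisSingleOne]
  rw [LinearEquiv.symm_apply_eq]
  simp only [LinearEquiv.trans_apply, AlgEquiv.toLinearEquiv_apply]
  have : equivMonoidAlgebraFreeMonoid (FreeMonoid.lift (FreeAlgebra.ι K) w)
      = MonoidAlgebra.of K (FreeMonoid X) w := by
    rw [← AlgEquiv.eq_symm_apply]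
    simp [equivMonoidAlgebraFreeMonoid]
  rw [this]
  rfl

lemma mono_mul (u v : FreeMonoid X) : mono K (u * v) = mono K u * mono K v := by
  simp [mono]

lemma mono_one : mono K (1 : FreeMonoid X) = 1 := by simp [mono]

lemma mono_pow (u : FreeMonoid X) (n : ℕ) : mono K (u ^ n) = mono K u ^ n := by
  simp [mono]

lemma supp_mono (w : FreeMonoid X) : supp (mono K w) = {w} := by
  unfold supp
  rw [← basis_eq_mono, Module.Basis.repr_self, Finsupp.support_single _ one_ne_zero]

lemma isLead_mono (r : FreeMonoid X → FreeMonoid X → Prop) (w : FreeMonoid X) :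
    IsLead r (mono K w) w := by
  refine ⟨by simp [supp_mono], ?_⟩
  intro v hv hne
  rw [supp_mono, Finset.mem_singleton] at hv
  exact absurd hv hne

lemma mem_supp {f : FreeAlgebra K X} {w : FreeMonoid X} :
    w ∈ supp f ↔ (basisFreeMonoid K X).repr f w ≠ 0 := by
  simp [supp]

lemma supp_eq_empty {f : FreeAlgebra K X} (h : supp f = ∅) : f = 0 := by
  have : (basisFreeMonoid K X).repr f = 0 := Finsupp.support_eq_empty.1 h
  simpa using this

/-- Division step: subtract a multiple of `z` to kill the coefficient of `w`. -/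
lemma supp_sub_smul (r : FreeMonoid X → FreeMonoid X → Prop)
    {f z : FreeAlgebra K X} {w : FreeMonoid X} (hf : IsLead r f w) (hz : IsLead r z w) :
    ∃ c : K, ∀ v ∈ supp (f - c • z), r v w := by
  classical
  have hzw : (basisFreeMonoid K X).repr z w ≠ 0 := mem_supp.1 hz.1
  refine ⟨(basisFreeMonoid K X).repr f w / (basisFreeMonoid K X).repr z w, ?_⟩
  intro v hv
  rw [mem_supp] at hv
  simp only [map_sub, map_smul, Finsupp.coe_sub, Finsupp.coe_smul, Pi.sub_apply, Pi.smul_apply,
    smul_eq_mul] at hv
  by_cases hvw : v = w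
  · subst hvw
    exfalso
    apply hv
    field_simp
    simp
  · by_cases hvf : v ∈ supp f
    · exact hf.2 v hvf hvw
    · by_cases hvz : v ∈ supp z
      · exact hz.2 v hvz hvw
      · exfalso
        apply hv
        rw [mem_supp, not_not] at hvf hvz
        rw [hvf, hvz]
        simp

lemma exists_lead (r : FreeMonoid X → FreeMonoid X → Prop) [IsWellOrder (FreeMonoid X) r]
    {f : FreeAlgebra K X} (hf : f ≠ 0) : ∃ w, IsLead r f w := by
  classical
  let _ : LinearOrder (FreeMonoid X) := linearOrderOfSTO r
  have hne : (supp f).Nonempty := by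
    rw [Finset.nonempty_iff_ne_empty]
    exact fun h => hf (supp_eq_empty h)
  refine ⟨(supp f).max' hne, Finset.max'_mem _ _, ?_⟩
  intro v hv hvw
  have : v ≤ (supp f).max' hne := Finset.le_max' _ _ hv
  exact lt_of_le_of_ne this hvw

/-- Every element is the sum of an element of `A` and a combination of words that are not leading
words of `A`. -/
theorem mem_sup (r : FreeMonoid X → FreeMonoid X → Prop) [IsWellOrder (FreeMonoid X) r]
    (A : Submodule K (FreeAlgebra K X)) (f : FreeAlgebra K X) :
    f ∈ A ⊔ Submodule.span K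
      (mono K '' {w : FreeMonoid X | FreeMonoid.toList w ∉ leads r (A : Set (FreeAlgebra K X))}) := by
  classical
  set V := Submodule.span K
      (mono K '' {w : FreeMonoid X | FreeMonoid.toList w ∉ leads r (A : Set (FreeAlgebra K X))})
    with hV
  -- one division step
  have step : ∀ (g : FreeAlgebra K X) (w : FreeMonoid X), IsLead r g w →
      ∃ g', (∀ v ∈ supp g', r v w) ∧ (g' ∈ A ⊔ V → g ∈ A ⊔ V) := by
    intro g w hgw
    have : ∃ z ∈ A ⊔ V, IsLead r z w := by
      by_cases hw : FreeMonoid.toList w ∈ leads r (A : Set (FreeAlgebra K X))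
      · obtain ⟨a, ha, haw⟩ := hw
        exact ⟨a, Submodule.mem_sup_left ha, haw⟩
      · exact ⟨mono K w, Submodule.mem_sup_right
          (Submodule.subset_span ⟨w, hw, rfl⟩), isLead_mono r w⟩
    obtain ⟨z, hz, hzw⟩ := this
    obtain ⟨c, hc⟩ := supp_sub_smul r hgw hzw
    refine ⟨g - c • z, hc, fun h => ?_⟩
    have := Submodule.add_mem _ h (Submodule.smul_mem _ c hz)
    simpa using this
  have key : ∀ w : FreeMonoid X, ∀ g : FreeAlgebra K X, (∀ v ∈ supp g, r v w) → g ∈ A ⊔ V := by
    intro w
    induction w using (IsWellFounded.wf (r := r)).induction with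
    | _ w ih =>
      intro g hg
      by_cases h0 : g = 0
      · rw [h0]; exact zero_mem _
      · obtain ⟨w', hw'⟩ := exists_lead r h0
        obtain ⟨g', hg', himp⟩ := step g w' hw'
        exact himp (ih w' (hg w' hw'.1) g' hg')
  by_cases h0 : f = 0
  · rw [h0]; exact zero_mem _
  · obtain ⟨w', hw'⟩ := exists_lead r h0
    obtain ⟨g', hg', himp⟩ := step f w' hw'
    exact himp (key w' g' hg')

/-- If the leading words form a regular language, `I ⊆ A` is an ideal and every nonempty word has a
power in `I`, then all but finitely many words are leading words of `A`. -/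
theorem finite_compl [Finite X] (r : FreeMonoid X → FreeMonoid X → Prop)
    (A : Submodule K (FreeAlgebra K X)) (hreg : (leads r (A : Set (FreeAlgebra K X))).IsRegular)
    (I : TwoSidedIdeal (FreeAlgebra K X)) (hIA : ∀ x ∈ I, x ∈ A)
    (hnil : ∀ w : FreeMonoid X, w ≠ 1 → ∃ m : ℕ, 0 < m ∧ mono K w ^ m ∈ I) :
    {w : List X | w ∉ leads r (A : Set (FreeAlgebra K X))}.Finite := by
  classical
  by_contra hinf
  have hinf' : {w : List X | w ∉ leads r (A : Set (FreeAlgebra K X))}.Infinite := hinf
  obtain ⟨σ, hσ, M, hM⟩ := hreg.compl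
  have hex : ∃ x ∈ {w : List X | w ∉ leads r (A : Set (FreeAlgebra K X))},
      Fintype.card σ ≤ x.length := by
    by_contra hno
    push Not at hno
    exact hinf' ((List.finite_length_lt X (Fintype.card σ)).subset fun w hw => hno w hw)
  obtain ⟨x, hx, hlen⟩ := hex
  have hxM : x ∈ M.accepts := by
    rw [hM]; exact hx
  obtain ⟨a, b, c, hxe, -, hb, hpump⟩ := M.pumping_lemma hxM hlen
  obtain ⟨m, -, hm⟩ := hnil (FreeMonoid.ofList b) (by
    intro h
    apply hb
    exact h)
  -- the pumped word
  have hmem : mono K (FreeMonoid.ofList a * FreeMonoid.ofList b ^ m * FreeMonoid.ofList c) ∈ A := by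
    rw [mono_mul, mono_mul, mono_pow]
    exact hIA _ (TwoSidedIdeal.mul_mem_right _ _ _ (TwoSidedIdeal.mul_mem_left _ _ _ hm))
  have hlead : FreeMonoid.toList
      (FreeMonoid.ofList a * FreeMonoid.ofList b ^ m * FreeMonoid.ofList c)
      ∈ leads r (A : Set (FreeAlgebra K X)) :=
    ⟨_, hmem, isLead_mono r _⟩
  have hpow : ∀ k : ℕ, FreeMonoid.toList (FreeMonoid.ofList b ^ k) ∈ KStar.kstar ({b} : Language X) := by
    intro k
    induction k with
    | zero => exact Language.nil_mem_kstar _
    | succ k ih =>
      rw [pow_succ', FreeMonoid.toList_mul]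
      rw [← Language.one_add_self_mul_kstar_eq_kstar]
      right
      exact Language.mem_mul.2 ⟨b, rfl, _, ih, rfl⟩
  have hacc : FreeMonoid.toList
      (FreeMonoid.ofList a * FreeMonoid.ofList b ^ m * FreeMonoid.ofList c) ∈ M.accepts := by
    apply hpump
    rw [FreeMonoid.toList_mul, FreeMonoid.toList_mul]
    refine Language.mem_mul.2 ⟨_, Language.mem_mul.2 ⟨a, rfl, _, hpow m, rfl⟩, c, rfl, rfl⟩
  rw [hM] at hacc
  exact hacc hlead

end Pool.Agent.Helper51.Sagbi
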