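import Pool.Agent.Helper51.Sagbi.Nilp

/-!
# The criterion for finite codimension

Helper file for MP_0d1f08_al.
-/

set_option autoImplicit false

namespace Pool.Agent.Helper51.Sagbi

open FreeAlgebra

variable {K : Type} [Field K] {n : ℕ}

lemma mem_mul_mono {P Q P' Q' : Submodule K (FreeAlgebra K (Fin n))} (h1 : P ≤ P') (h2 : Q ≤ Q')
    {x : FreeAlgebra K (Fin n)} (hx : x ∈ P * Q) : x ∈ P' * Q' := (mul_le_mul' h1 h2 : P * Q ≤ P' * Q') hx

/-! ### Left version -/

lemma span_le_top_mul (S : Set (FreeAlgebra K (Fin n))) {f : FreeAlgebra K (Fin n)}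
    (hf : f ∈ Submodule.span (FreeAlgebra K (Fin n)) S) :
    f ∈ (⊤ * Submodule.span K S : Submodule K (FreeAlgebra K (Fin n))) := by
  induction hf using Submodule.span_induction with
  | mem x hx =>
    have := Submodule.mul_mem_mul (M := (⊤ : Submodule K (FreeAlgebra K (Fin n))))
      (N := Submodule.span K S) (m := 1) (n := x) trivial (Submodule.subset_span hx)
    simpa using this
  | zero => exact zero_mem _
  | add x y _ _ hx hy => exact Submodule.add_mem _ hx hy
  | smul r x _ hx =>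
    have h1 : r • x ∈ (⊤ * (⊤ * Submodule.span K S) : Submodule K (FreeAlgebra K (Fin n))) :=
      Submodule.mul_mem_mul trivial hx
    rw [← mul_assoc] at h1
    exact mem_mul_mono le_top le_rfl h1

lemma top_mul_le_span (S : Set (FreeAlgebra K (Fin n))) {f : FreeAlgebra K (Fin n)}
    (hf : f ∈ (⊤ * Submodule.span K S : Submodule K (FreeAlgebra K (Fin n)))) :
    f ∈ Submodule.span (FreeAlgebra K (Fin n)) S := by
  induction hf using Submodule.mul_induction_on' with
  | mem_mul_mem a _ b hb =>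
    rw [← smul_eq_mul]
    refine Submodule.smul_mem _ a ?_
    exact Submodule.span_le_restrictScalars K (FreeAlgebra K (Fin n)) S hb
  | add a _ b _ h1 h2 => exact Submodule.add_mem _ h1 h2

lemma top_mul_augI : (⊤ * augI K n : Submodule K (FreeAlgebra K (Fin n))) ≤ augI K n := by
  rw [Submodule.mul_le]
  intro a _ b hb
  rw [mem_augI] at hb ⊢
  rw [map_mul, hb, mul_zero]

lemma augI_mul_top : (augI K n * ⊤ : Submodule K (FreeAlgebra K (Fin n))) ≤ augI K n := by
  rw [Submodule.mul_le]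
  intro a ha b _
  rw [mem_augI] at ha ⊢
  rw [map_mul, ha, zero_mul]

lemma augI_le_top_mul (k : ℕ) (P : Submodule K (FreeAlgebra K (Fin n)))
    (h : (augI K n) ^ k ≤ ⊤ * P) : (augI K n) ^ (k + 1) ≤ ⊤ * P := by
  rw [pow_succ']
  calc augI K n * (augI K n) ^ k ≤ ⊤ * (⊤ * P) := mul_le_mul' le_top h
    _ = (⊤ * ⊤) * P := by rw [mul_assoc]
    _ ≤ ⊤ * P := mul_le_mul' le_top le_rfl

theorem left_version (S : Set (FreeAlgebra K (Fin n))) (hS : S.Finite)
    (I : TwoSidedIdeal (FreeAlgebra K (Fin n)))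
    (hI : ∀ x ∈ I, x ∈ (⊤ * Submodule.span K S : Submodule K (FreeAlgebra K (Fin n))))
    (hnil : NilMod I) :
    ∃ k : ℕ, 0 < k ∧ (augI K n) ^ k ≤ ⊤ * Submodule.span K S := by
  by_cases hne : ∃ p ∈ I, p ≠ 0
  · obtain ⟨p, hp, hp0⟩ := hne
    set L := Submodule.span (FreeAlgebra K (Fin n)) S with hL
    have hfg : L.FG := Submodule.fg_span hS
    have hIL : ∀ x ∈ I, x ∈ L := fun x hx => top_mul_le_span S (hI x hx)
    obtain ⟨k, hk⟩ := exists_pow_le (finCodim_of_fg hfg I hIL hp hp0) I hIL hnil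
    refine ⟨k + 1, Nat.succ_pos k, augI_le_top_mul k _ ?_⟩
    intro f hf
    exact span_le_top_mul S (hk f hf)
  · push Not at hne
    refine ⟨1, one_pos, ?_⟩
    rw [pow_one]
    intro f hf
    obtain ⟨m, hm, hfm⟩ := hnil f (mem_augI.1 hf)
    have h0 : f ^ m = 0 := hne _ hfm
    have : f = 0 := by
      by_contra hf0
      exact pow_ne_zero m hf0 h0
    rw [this]
    exact zero_mem _

/-! ### The reversal -/

/-- The reversal of words. -/
noncomputable def rev (K : Type) [Field K] (n : ℕ) : FreeAlgebra K (Fin n) →ₗ[K] FreeAlgebra K (Fin n) :=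
  (MulOpposite.opLinearEquiv K).symm.toLinearMap ∘ₗ
    (FreeAlgebra.starHom (R := K) (X := Fin n)).toLinearEquiv.toLinearMap

lemma rev_mul (x y : FreeAlgebra K (Fin n)) : rev K n (x * y) = rev K n y * rev K n x := by
  simp [rev]

lemma rev_eq_star (x : FreeAlgebra K (Fin n)) : rev K n x = star x := rfl

lemma rev_rev (x : FreeAlgebra K (Fin n)) : rev K n (rev K n x) = x := by
  rw [rev_eq_star, rev_eq_star, star_star]

lemma rev_one : rev K n 1 = 1 := by
  rw [rev_eq_star, star_one]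

lemma rev_pow (x : FreeAlgebra K (Fin n)) (m : ℕ) : rev K n (x ^ m) = (rev K n x) ^ m := by
  rw [rev_eq_star, rev_eq_star, star_pow]

lemma aug_rev (x : FreeAlgebra K (Fin n)) :
    FreeAlgebra.lift K (0 : Fin n → K) (rev K n x) = FreeAlgebra.lift K (0 : Fin n → K) x := by
  induction x using FreeAlgebra.induction with
  | grade0 r => rw [rev_eq_star, FreeAlgebra.star_algebraMap]
  | grade1 i => rw [rev_eq_star, FreeAlgebra.star_ι]
  | mul a b ha hb => rw [rev_mul, map_mul, map_mul, ha, hb, mul_comm]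
  | add a b ha hb => rw [map_add, map_add, map_add, ha, hb]

lemma rev_mem_mul {P Q : Submodule K (FreeAlgebra K (Fin n))} {x : FreeAlgebra K (Fin n)}
    (hx : x ∈ P * Q) : rev K n x ∈ Q.map (rev K n) * P.map (rev K n) := by
  induction hx using Submodule.mul_induction_on' with
  | mem_mul_mem a ha b hb =>
    rw [rev_mul]
    exact Submodule.mul_mem_mul ⟨b, hb, rfl⟩ ⟨a, ha, rfl⟩
  | add a _ b _ h1 h2 => rw [map_add]; exact Submodule.add_mem _ h1 h2

lemma map_rev_augI : (augI K n).map (rev K n) ≤ augI K n := by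
  rintro _ ⟨x, hx, rfl⟩
  rw [SetLike.mem_coe, mem_augI] at hx
  rw [mem_augI, aug_rev, hx]

lemma rev_mem_pow (k : ℕ) : ∀ {x : FreeAlgebra K (Fin n)}, x ∈ (augI K n) ^ k →
    rev K n x ∈ (augI K n) ^ k := by
  induction k with
  | zero =>
    intro x hx
    rw [pow_zero] at hx ⊢
    obtain ⟨c, rfl⟩ := Submodule.mem_one.1 hx
    rw [rev_eq_star, FreeAlgebra.star_algebraMap]
    exact Submodule.mem_one.2 ⟨c, rfl⟩
  | succ k ih =>
    intro x hx
    rw [pow_succ] at hx
    have h1 := rev_mem_mul hx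
    rw [pow_succ']
    refine mem_mul_mono map_rev_augI ?_ h1
    rintro _ ⟨y, hy, rfl⟩
    exact ih hy

/-- The image of an ideal under the reversal. -/
def revI (I : TwoSidedIdeal (FreeAlgebra K (Fin n))) : TwoSidedIdeal (FreeAlgebra K (Fin n)) :=
  TwoSidedIdeal.mk' {x | rev K n x ∈ I} (by simp [I.zero_mem])
    (fun {x y} hx hy => by
      simp only [Set.mem_ofPred_eq, map_add] at hx hy ⊢
      exact I.add_mem hx hy)
    (fun {x} hx => by
      simp only [Set.mem_ofPred_eq, map_neg] at hx ⊢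
      exact I.neg_mem hx)
    (fun {x y} hy => by
      simp only [Set.mem_ofPred_eq, rev_mul] at hy ⊢
      exact I.mul_mem_right _ _ hy)
    (fun {x y} hx => by
      simp only [Set.mem_ofPred_eq, rev_mul] at hx ⊢
      exact I.mul_mem_left _ _ hx)

lemma mem_revI {I : TwoSidedIdeal (FreeAlgebra K (Fin n))} {x : FreeAlgebra K (Fin n)} :
    x ∈ revI I ↔ rev K n x ∈ I := by
  unfold revI
  rw [TwoSidedIdeal.mem_mk']
  rfl

theorem right_version (S : Set (FreeAlgebra K (Fin n))) (hS : S.Finite)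
    (I : TwoSidedIdeal (FreeAlgebra K (Fin n)))
    (hI : ∀ x ∈ I, x ∈ (Submodule.span K S * ⊤ : Submodule K (FreeAlgebra K (Fin n))))
    (hnil : NilMod I) :
    ∃ k : ℕ, 0 < k ∧ (augI K n) ^ k ≤ Submodule.span K S * ⊤ := by
  have h1 : ∀ x ∈ revI I, x ∈ (⊤ * Submodule.span K (rev K n '' S) :
      Submodule K (FreeAlgebra K (Fin n))) := by
    intro x hx
    have h2 := rev_mem_mul (hI _ (mem_revI.1 hx))
    rw [rev_rev, Submodule.map_span] at h2
    exact mem_mul_mono le_top le_rfl h2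
  have h2 : NilMod (revI I) := by
    intro f hf
    obtain ⟨m, hm, hfm⟩ := hnil (rev K n f) (by rw [aug_rev]; exact hf)
    exact ⟨m, hm, mem_revI.2 (by rw [rev_pow]; exact hfm)⟩
  obtain ⟨k, hk, hk2⟩ := left_version (rev K n '' S) (hS.image _) (revI I) h1 h2
  refine ⟨k, hk, ?_⟩
  intro x hx
  have h3 := rev_mem_mul (hk2 (rev_mem_pow k hx))
  rw [rev_rev, Submodule.map_span] at h3
  have h4 : rev K n '' (rev K n '' S) = S := by
    rw [Set.image_image]
    simp [rev_rev]
  rw [h4] at h3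
  exact mem_mul_mono le_rfl le_top h3

/-! ### The subalgebra -/

lemma subalg_le_right (S : Set (FreeAlgebra K (Fin n))) {x : FreeAlgebra K (Fin n)}
    (hx : x ∈ subalg S) :
    x ∈ (Submodule.span K S * ⊤ : Submodule K (FreeAlgebra K (Fin n))) := by
  have hx' : x ∈ NonUnitalAlgebra.adjoin K S := hx
  clear hx
  induction hx' using NonUnitalAlgebra.adjoin_induction with
  | mem s hs =>
    have := Submodule.mul_mem_mul (M := Submodule.span K S)
      (N := (⊤ : Submodule K (FreeAlgebra K (Fin n)))) (m := s) (n := 1)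
      (Submodule.subset_span hs) trivial
    simpa using this
  | add x y _ _ hx hy => exact Submodule.add_mem _ hx hy
  | zero => exact zero_mem _
  | mul x y _ _ hx _ =>
    have h1 : x * y ∈ (Submodule.span K S * ⊤) * (⊤ : Submodule K (FreeAlgebra K (Fin n))) :=
      Submodule.mul_mem_mul hx trivial
    rw [mul_assoc] at h1
    exact mem_mul_mono le_rfl le_top h1
  | smul c x _ hx => exact Submodule.smul_mem _ c hx

lemma subalg_le_left (S : Set (FreeAlgebra K (Fin n))) {x : FreeAlgebra K (Fin n)}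
    (hx : x ∈ subalg S) :
    x ∈ (⊤ * Submodule.span K S : Submodule K (FreeAlgebra K (Fin n))) := by
  have hx' : x ∈ NonUnitalAlgebra.adjoin K S := hx
  clear hx
  induction hx' using NonUnitalAlgebra.adjoin_induction with
  | mem s hs =>
    have := Submodule.mul_mem_mul (N := Submodule.span K S)
      (M := (⊤ : Submodule K (FreeAlgebra K (Fin n)))) (m := 1) (n := s)
      trivial (Submodule.subset_span hs)
    simpa using this
  | add x y _ _ hx hy => exact Submodule.add_mem _ hx hy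
  | zero => exact zero_mem _
  | mul x y _ _ _ hy =>
    have h1 : x * y ∈ (⊤ : Submodule K (FreeAlgebra K (Fin n))) * (⊤ * Submodule.span K S) :=
      Submodule.mul_mem_mul trivial hy
    rw [← mul_assoc] at h1
    exact mem_mul_mono le_top le_rfl h1
  | smul c x _ hx => exact Submodule.smul_mem _ c hx

/-- The subalgebra as a subspace. -/
def subsp (S : Set (FreeAlgebra K (Fin n))) : Submodule K (FreeAlgebra K (Fin n)) :=
  (subalg S).toSubmodule

lemma span_le_subsp (S : Set (FreeAlgebra K (Fin n))) : Submodule.span K S ≤ subsp S := by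
  rw [Submodule.span_le]
  intro s hs
  exact NonUnitalAlgebra.subset_adjoin K hs

lemma subsp_mul_self (S : Set (FreeAlgebra K (Fin n))) : subsp S * subsp S ≤ subsp S := by
  rw [Submodule.mul_le]
  intro a ha b hb
  exact (subalg S).mul_mem ha hb

lemma subsp_pow_le (S : Set (FreeAlgebra K (Fin n))) (j : ℕ) : (subsp S) ^ (j + 1) ≤ subsp S := by
  induction j with
  | zero => rw [zero_add, pow_one]
  | succ j ih =>
    rw [pow_succ]
    exact (mul_le_mul' ih le_rfl).trans (subsp_mul_self S)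

/-- A power of `F` is contained in `F¹ A` and in `A F¹`. -/
theorem exists_pow_le_both (S : Set (FreeAlgebra K (Fin n))) (hS : S.Finite)
    (I : TwoSidedIdeal (FreeAlgebra K (Fin n))) (hI : ∀ x ∈ I, x ∈ subalg S) (hnil : NilMod I) :
    ∃ k : ℕ, 0 < k ∧ (augI K n) ^ k ≤ ⊤ * subsp S ∧ (augI K n) ^ k ≤ subsp S * ⊤ := by
  obtain ⟨k1, hk1, h1⟩ := left_version S hS I (fun x hx => subalg_le_left S (hI x hx)) hnil
  obtain ⟨k2, hk2, h2⟩ := right_version S hS I (fun x hx => subalg_le_right S (hI x hx)) hnil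
  have h1' : (augI K n) ^ k1 ≤ ⊤ * subsp S :=
    h1.trans (mul_le_mul' le_rfl (span_le_subsp S))
  have h2' : (augI K n) ^ k2 ≤ subsp S * ⊤ :=
    h2.trans (mul_le_mul' (span_le_subsp S) le_rfl)
  refine ⟨k1 + k2, by omega, ?_, ?_⟩
  · rw [add_comm, pow_add]
    calc (augI K n) ^ k2 * (augI K n) ^ k1 ≤ ⊤ * (⊤ * subsp S) :=
          mul_le_mul' le_top h1'
      _ = (⊤ * ⊤) * subsp S := by rw [mul_assoc]
      _ ≤ ⊤ * subsp S := mul_le_mul' le_top le_rfl
  · rw [add_comm, pow_add]
    calc (augI K n) ^ k2 * (augI K n) ^ k1 ≤ (subsp S * ⊤) * ⊤ :=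
          mul_le_mul' h2' le_top
      _ = subsp S * (⊤ * ⊤) := by rw [mul_assoc]
      _ ≤ subsp S * ⊤ := mul_le_mul' le_rfl le_top

lemma pow_mul_top_le {k : ℕ} (hk : 0 < k) :
    ((augI K n) ^ k * ⊤ : Submodule K (FreeAlgebra K (Fin n))) ≤ (augI K n) ^ k := by
  obtain ⟨k, rfl⟩ := Nat.exists_eq_succ_of_ne_zero hk.ne'
  rw [Nat.succ_eq_add_one, pow_succ, mul_assoc]
  exact mul_le_mul' le_rfl augI_mul_top

lemma top_mul_pow_le {k : ℕ} (hk : 0 < k) :
    (⊤ * (augI K n) ^ k : Submodule K (FreeAlgebra K (Fin n))) ≤ (augI K n) ^ k := by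
  obtain ⟨k, rfl⟩ := Nat.exists_eq_succ_of_ne_zero hk.ne'
  rw [Nat.succ_eq_add_one, pow_succ', ← mul_assoc]
  exact mul_le_mul' top_mul_augI le_rfl

lemma pow_left (A : Submodule K (FreeAlgebra K (Fin n))) {k : ℕ} (hk : 0 < k)
    (h : (augI K n) ^ k ≤ ⊤ * A) (j : ℕ) : (augI K n) ^ (k * j) * ⊤ ≤ ⊤ * A ^ j := by
  induction j with
  | zero => simp
  | succ j ih =>
    calc (augI K n) ^ (k * (j + 1)) * ⊤ = (augI K n) ^ (k * j) * ((augI K n) ^ k * ⊤) := by
          rw [mul_add, mul_one, pow_add, mul_assoc]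
      _ ≤ (augI K n) ^ (k * j) * (augI K n) ^ k := mul_le_mul' le_rfl (pow_mul_top_le hk)
      _ ≤ (augI K n) ^ (k * j) * (⊤ * A) := mul_le_mul' le_rfl h
      _ = ((augI K n) ^ (k * j) * ⊤) * A := by rw [mul_assoc]
      _ ≤ (⊤ * A ^ j) * A := mul_le_mul' ih le_rfl
      _ = ⊤ * A ^ (j + 1) := by rw [mul_assoc, pow_succ]

lemma pow_right (A : Submodule K (FreeAlgebra K (Fin n))) {k : ℕ} (hk : 0 < k)
    (h : (augI K n) ^ k ≤ A * ⊤) (j : ℕ) : ⊤ * (augI K n) ^ (k * j) ≤ A ^ j * ⊤ := by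
  induction j with
  | zero => simp
  | succ j ih =>
    calc ⊤ * (augI K n) ^ (k * (j + 1)) = (⊤ * (augI K n) ^ k) * (augI K n) ^ (k * j) := by
          rw [mul_add, mul_one, add_comm, pow_add, mul_assoc]
      _ ≤ (augI K n) ^ k * (augI K n) ^ (k * j) := mul_le_mul' (top_mul_pow_le hk) le_rfl
      _ ≤ (A * ⊤) * (augI K n) ^ (k * j) := mul_le_mul' h le_rfl
      _ = A * (⊤ * (augI K n) ^ (k * j)) := by rw [mul_assoc]
      _ ≤ A * (A ^ j * ⊤) := mul_le_mul' le_rfl ih
      _ = A ^ (j + 1) * ⊤ := by rw [← mul_assoc, pow_succ']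

lemma top_le : (⊤ : Submodule K (FreeAlgebra K (Fin n))) ≤ 1 ⊔ augI K n := by
  intro x _
  have h : x = algebraMap K _ (FreeAlgebra.lift K (0 : Fin n → K) x)
      + (x - algebraMap K _ (FreeAlgebra.lift K (0 : Fin n → K) x)) := by abel
  rw [h]
  refine Submodule.add_mem _ (Submodule.mem_sup_left (Submodule.mem_one.2 ⟨_, rfl⟩))
    (Submodule.mem_sup_right ?_)
  rw [mem_augI, map_sub, AlgHom.commutes]
  simp

lemma mono_mem_pow (w : FreeMonoid (Fin n)) : mono K w ∈ (augI K n) ^ w.length := by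
  induction w using FreeMonoid.inductionOn' with
  | one => rw [FreeMonoid.length_one, pow_zero, mono_one]; exact Submodule.one_le.1 le_rfl
  | of_mul x w ih =>
    rw [mono_mul, FreeMonoid.length_mul, FreeMonoid.length_of, pow_add, pow_one]
    refine Submodule.mul_mem_mul ?_ ih
    rw [mem_augI]
    exact aug_mono _ (by
      intro h
      have := congrArg FreeMonoid.length h
      simp at this)

/-- Powers of `F` have finite codimension. -/
lemma finCodim_pow (N : ℕ) (hN : 0 < N) :
    ∃ V : Submodule K (FreeAlgebra K (Fin n)), FiniteDimensional K V ∧ ⊤ ≤ (augI K n) ^ N ⊔ V := by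
  classical
  refine ⟨Submodule.span K (mono K '' {w : FreeMonoid (Fin n) | w.length < N}), ?_, ?_⟩
  · apply FiniteDimensional.span_of_finite
    apply Set.Finite.image
    exact List.finite_length_lt (Fin n) N
  · intro x _
    have hx := (basisFreeMonoid K (Fin n)).mem_span x
    have hle : Submodule.span K (Set.range (basisFreeMonoid K (Fin n))) ≤ (augI K n) ^ N ⊔
        Submodule.span K (mono K '' {w : FreeMonoid (Fin n) | w.length < N}) := by
      rw [Submodule.span_le]
      rintro _ ⟨w, rfl⟩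
      rw [basis_eq_mono]
      by_cases hw : w.length < N
      · exact Submodule.mem_sup_right (Submodule.subset_span ⟨w, hw, rfl⟩)
      · apply Submodule.mem_sup_left
        have h1 := mono_mem_pow (K := K) w
        obtain ⟨d, hd⟩ := Nat.exists_eq_add_of_le (not_lt.1 hw)
        rw [hd, pow_add] at h1
        exact (pow_mul_top_le hN) (mem_mul_mono le_rfl le_top h1)
    exact hle hx

/-- The criterion. -/
theorem criterion (S : Set (FreeAlgebra K (Fin n))) (hS : S.Finite)
    (I : TwoSidedIdeal (FreeAlgebra K (Fin n))) (hI : ∀ x ∈ I, x ∈ subalg S) (hnil : NilMod I) :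
    FinCodim (subalg S : Set (FreeAlgebra K (Fin n))) ↔
      ∃ (j : ℕ) (W : Submodule K (FreeAlgebra K (Fin n))), FiniteDimensional K W ∧
        (subsp S) ^ j * augI K n * (subsp S) ^ j ≤ subsp S ⊔ W := by
  constructor
  · rintro ⟨V, hV, hVx⟩
    refine ⟨0, V, hV, ?_⟩
    intro x _
    obtain ⟨a, ha, v, hv, rfl⟩ := hVx x
    exact Submodule.add_mem _ (Submodule.mem_sup_left ha) (Submodule.mem_sup_right hv)
  · rintro ⟨j, W, hW, hle⟩
    -- we may assume `j ≥ 1`
    have hle' : (subsp S) ^ (j + 1) * augI K n * (subsp S) ^ (j + 1) ≤ subsp S ⊔ W := by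
      refine le_trans ?_ hle
      calc (subsp S) ^ (j + 1) * augI K n * (subsp S) ^ (j + 1)
          = (subsp S) ^ j * ((subsp S * augI K n) * subsp S) * (subsp S) ^ j := by
            rw [pow_succ (subsp S) j]
            nth_rewrite 2 [← pow_succ (subsp S) j]
            rw [pow_succ' (subsp S) j]
            simp only [mul_assoc]
        _ ≤ (subsp S) ^ j * augI K n * (subsp S) ^ j := by
            refine mul_le_mul' (mul_le_mul' le_rfl ?_) le_rfl
            calc (subsp S * augI K n) * subsp S ≤ (⊤ * augI K n) * ⊤ :=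
                  mul_le_mul' (mul_le_mul' le_top le_rfl) le_top
              _ ≤ augI K n * ⊤ := mul_le_mul' top_mul_augI le_rfl
              _ ≤ augI K n := augI_mul_top
    obtain ⟨k, hk, h1, h2⟩ := exists_pow_le_both S hS I hI hnil
    have h3 : (augI K n) ^ (k * (j + 1) + k * (j + 1)) ≤ subsp S ⊔ W := by
      calc (augI K n) ^ (k * (j + 1) + k * (j + 1))
          = (1 * (augI K n) ^ (k * (j + 1))) * ((augI K n) ^ (k * (j + 1)) * 1) := by
            rw [one_mul, mul_one, pow_add]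
        _ ≤ (⊤ * (augI K n) ^ (k * (j + 1))) * ((augI K n) ^ (k * (j + 1)) * ⊤) :=
            mul_le_mul' (mul_le_mul' le_top le_rfl)
              (mul_le_mul' le_rfl le_top)
        _ ≤ ((subsp S) ^ (j + 1) * ⊤) * (⊤ * (subsp S) ^ (j + 1)) :=
            mul_le_mul' (pow_right _ hk h2 _) (pow_left _ hk h1 _)
        _ = (subsp S) ^ (j + 1) * (⊤ * ⊤) * (subsp S) ^ (j + 1) := by simp only [mul_assoc]
        _ ≤ (subsp S) ^ (j + 1) * (1 ⊔ augI K n) * (subsp S) ^ (j + 1) :=
            mul_le_mul' (mul_le_mul' le_rfl (le_top.trans top_le)) le_rfl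
        _ = (subsp S) ^ (j + 1) * (subsp S) ^ (j + 1) ⊔
            (subsp S) ^ (j + 1) * augI K n * (subsp S) ^ (j + 1) := by
            rw [Submodule.mul_sup, Submodule.sup_mul, mul_one]
        _ ≤ subsp S ⊔ W := by
            refine sup_le ?_ hle'
            refine le_trans ?_ le_sup_left
            exact (mul_le_mul' (subsp_pow_le S j) (subsp_pow_le S j)).trans
              (subsp_mul_self S)
    obtain ⟨V, hV, hV2⟩ := finCodim_pow (K := K) (n := n) (k * (j + 1) + k * (j + 1)) (by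
      have : 0 < k * (j + 1) := Nat.mul_pos hk (Nat.succ_pos j)
      omega)
    refine ⟨W ⊔ V, inferInstance, fun x => ?_⟩
    have h4 : x ∈ subsp S ⊔ (W ⊔ V) := by
      rw [← sup_assoc]
      exact (sup_le_sup h3 le_rfl) (hV2 trivial)
    obtain ⟨a, ha, v, hv, h⟩ := Submodule.mem_sup.1 h4
    exact ⟨a, ha, v, hv, h.symm⟩

end Pool.Agent.Helper51.Sagbi
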