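import Pool.Agent.Helper51.Sagbi.Aug

/-!
# Finitely generated left ideals of the free algebra that contain a nonzero two-sided ideal

Such a left ideal has finite codimension. Helper file for MP_0d1f08_al.
-/

set_option autoImplicit false

namespace Pool.Agent.Helper51.Sagbi

open FreeAlgebra
open scoped Pointwise

variable {K : Type} [Field K] {n : ℕ}

/-- The shortlex order of words. -/
def slx (n : ℕ) (u v : FreeMonoid (Fin n)) : Prop :=
  List.Shortlex (· < ·) (FreeMonoid.toList u) (FreeMonoid.toList v)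

instance (n : ℕ) : IsWellOrder (FreeMonoid (Fin n)) (slx n) where
  wf := List.Shortlex.wf (r := ((· < ·) : Fin n → Fin n → Prop)) (wellFounded_lt)
  trichotomous := (List.Shortlex.trichotomous (r := ((· < ·) : Fin n → Fin n → Prop))).trichotomous

lemma lex_append_of_length {α : Type} {r : α → α → Prop} {u v : List α} (b : List α)
    (hl : u.length = v.length) (h : List.Lex r u v) : List.Lex r (u ++ b) (v ++ b) := by
  induction h with
  | nil => simp at hl
  | cons h ih =>
    simp only [List.cons_append]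
    exact List.Lex.cons (ih (by simpa using hl))
  | rel h =>
    simp only [List.cons_append]
    exact List.Lex.rel h

lemma compat_slx (n : ℕ) : Compat (slx n) := by
  intro u v a b h
  unfold slx at h ⊢
  rw [FreeMonoid.toList_mul, FreeMonoid.toList_mul, FreeMonoid.toList_mul, FreeMonoid.toList_mul,
    List.append_assoc, List.append_assoc]
  apply List.Shortlex.append_left
  rcases List.shortlex_def.1 h with h | ⟨hl, h⟩
  · apply List.Shortlex.of_length_lt
    simp only [List.length_append]
    omega
  · exact List.Shortlex.of_lex (by simp [hl]) (lex_append_of_length _ hl h)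

/-- `w` is the leading word of an element of `L`. -/
def IsLd (L : Submodule (FreeAlgebra K (Fin n)) (FreeAlgebra K (Fin n)))
    (w : FreeMonoid (Fin n)) : Prop := ∃ f ∈ L, IsLead (slx n) f w

lemma isLd_mul {L : Submodule (FreeAlgebra K (Fin n)) (FreeAlgebra K (Fin n))}
    {w : FreeMonoid (Fin n)} (h : IsLd L w) (u : FreeMonoid (Fin n)) : IsLd L (u * w) := by
  obtain ⟨f, hf, hw⟩ := h
  exact ⟨mono K u * f, L.smul_mem (mono K u) hf,
    isLead_mul (compat_slx n) (isLead_mono (slx n) u) hw⟩

/-- The leading words no proper suffix of which is a leading word. -/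
def minLd (L : Submodule (FreeAlgebra K (Fin n)) (FreeAlgebra K (Fin n))) :
    Set (FreeMonoid (Fin n)) :=
  {w | IsLd L w ∧ ∀ u v, w = u * v → u ≠ 1 → ¬ IsLd L v}

lemma exists_min {L : Submodule (FreeAlgebra K (Fin n)) (FreeAlgebra K (Fin n))} :
    ∀ (k : ℕ) (w : FreeMonoid (Fin n)), w.length = k → IsLd L w → ∃ u v, w = u * v ∧ v ∈ minLd L := by
  intro k
  induction k using Nat.strong_induction_on with
  | _ k ih =>
    intro w hw h
    by_cases hmin : w ∈ minLd L
    · exact ⟨1, w, by simp, hmin⟩
    · have : ∃ u v, w = u * v ∧ u ≠ 1 ∧ IsLd L v := by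
        by_contra hno
        push Not at hno
        exact hmin ⟨h, hno⟩
      obtain ⟨u, v, huv, hu, hv⟩ := this
      have hlen : v.length < k := by
        rw [← hw, huv, FreeMonoid.length_mul]
        have : u.length ≠ 0 := fun h0 => hu (FreeMonoid.length_eq_zero.1 h0)
        omega
      obtain ⟨u', v', h1, h2⟩ := ih v.length hlen v rfl hv
      exact ⟨u * u', v', by rw [huv, h1, mul_assoc], h2⟩

lemma isLead_add {f g : FreeAlgebra K (Fin n)} {p q : FreeMonoid (Fin n)}
    (hf : IsLead (slx n) f p) (hg : IsLead (slx n) g q) (hpq : slx n p q) :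
    IsLead (slx n) (f + g) q := by
  classical
  have hqf : q ∉ supp f := by
    intro hq
    have h1 : q ≠ p := by rintro rfl; exact irrefl_of (slx n) q hpq
    exact irrefl_of (slx n) p (trans_of (slx n) hpq (hf.2 q hq h1))
  refine ⟨?_, ?_⟩
  · have h1 := mem_supp.1 hg.1
    have h2 : (basisFreeMonoid K (Fin n)).repr f q = 0 := by
      by_contra hne
      exact hqf (mem_supp.2 hne)
    rw [mem_supp, map_add, Finsupp.add_apply, h2, zero_add]
    exact h1
  · intro v hv hne
    rw [mem_supp, map_add, Finsupp.add_apply] at hv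
    by_cases hvf : v ∈ supp f
    · by_cases hvp : v = p
      · rw [hvp]; exact hpq
      · exact trans_of (slx n) (hf.2 v hvf hvp) hpq
    · have h2 : (basisFreeMonoid K (Fin n)).repr f v = 0 := by
        by_contra hne
        exact hvf (mem_supp.2 hne)
      rw [h2, zero_add] at hv
      exact hg.2 v (mem_supp.2 hv) hne

lemma append_cases {u w u' w' : FreeMonoid (Fin n)} (h : u * w = u' * w') :
    (∃ a, w' = a * w) ∨ (∃ a, w = a * w') := by
  have h' : FreeMonoid.toList u ++ FreeMonoid.toList w
      = FreeMonoid.toList u' ++ FreeMonoid.toList w' := by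
    rw [← FreeMonoid.toList_mul, ← FreeMonoid.toList_mul, h]
  rcases List.append_eq_append_iff.1 h' with ⟨a, -, ha⟩ | ⟨a, -, ha⟩
  · right
    exact ⟨FreeMonoid.ofList a, ha⟩
  · left
    exact ⟨FreeMonoid.ofList a, ha⟩

/-- Elements of the left ideal generated by `z w`, `w ∈ F`, have leading words `u * w`. -/
lemma lead_of_sum {L : Submodule (FreeAlgebra K (Fin n)) (FreeAlgebra K (Fin n))}
    (z : FreeMonoid (Fin n) → FreeAlgebra K (Fin n))
    (hz : ∀ w ∈ minLd L, IsLead (slx n) (z w) w) (g : FreeMonoid (Fin n) → FreeAlgebra K (Fin n))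
    (F : Finset (FreeMonoid (Fin n))) (hF : ∀ w ∈ F, w ∈ minLd L) :
    (∑ w ∈ F, g w * z w) = 0 ∨ ∃ u, ∃ w ∈ F, IsLead (slx n) (∑ w ∈ F, g w * z w) (u * w) := by
  classical
  induction F using Finset.induction_on with
  | empty => left; simp
  | insert w₀ F hw₀ ih =>
    rw [Finset.sum_insert hw₀]
    have ih' := ih (fun w hw => hF w (Finset.mem_insert_of_mem hw))
    by_cases hg0 : g w₀ = 0
    · rw [hg0, zero_mul, zero_add]
      rcases ih' with h | ⟨u, w, hw, h⟩
      · left; exact h
      · right; exact ⟨u, w, Finset.mem_insert_of_mem hw, h⟩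
    · obtain ⟨u₀, hu₀⟩ := exists_lead (slx n) hg0
      have h1 : IsLead (slx n) (g w₀ * z w₀) (u₀ * w₀) :=
        isLead_mul (compat_slx n) hu₀ (hz w₀ (hF w₀ (Finset.mem_insert_self _ _)))
      rcases ih' with h | ⟨u, w, hw, h⟩
      · right
        rw [h, add_zero]
        exact ⟨u₀, w₀, Finset.mem_insert_self _ _, h1⟩
      · right
        have hne : u₀ * w₀ ≠ u * w := by
          intro heq
          have hwne : w ≠ w₀ := by rintro rfl; exact hw₀ hw
          have hm0 := hF w₀ (Finset.mem_insert_self _ _)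
          have hm1 := hF w (Finset.mem_insert_of_mem hw)
          rcases append_cases heq with ⟨a, ha⟩ | ⟨a, ha⟩
          · have ha1 : a ≠ 1 := by
              rintro rfl
              exact hwne (by simpa using ha)
            exact hm1.2 a w₀ ha ha1 hm0.1
          · have ha1 : a ≠ 1 := by
              rintro rfl
              exact hwne (by simpa using ha.symm)
            exact hm0.2 a w ha ha1 hm1.1
        rcases trichotomous_of (slx n) (u₀ * w₀) (u * w) with hlt | heq | hgt
        · exact ⟨u, w, Finset.mem_insert_of_mem hw, isLead_add h1 h hlt⟩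
        · exact absurd heq hne
        · refine ⟨u₀, w₀, Finset.mem_insert_self _ _, ?_⟩
          rw [add_comm]
          exact isLead_add h h1 hgt

/-- Division: `L` is generated by elements with the minimal leading words. -/
lemma mem_span_min {L : Submodule (FreeAlgebra K (Fin n)) (FreeAlgebra K (Fin n))}
    (z : FreeMonoid (Fin n) → FreeAlgebra K (Fin n)) (hzL : ∀ w ∈ minLd L, z w ∈ L)
    (hz : ∀ w ∈ minLd L, IsLead (slx n) (z w) w) {f : FreeAlgebra K (Fin n)} (hf : f ∈ L) :
    f ∈ Submodule.span (FreeAlgebra K (Fin n)) (z '' minLd L) := by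
  classical
  set M := Submodule.span (FreeAlgebra K (Fin n)) (z '' minLd L) with hM
  have step : ∀ g ∈ L, ∀ w, IsLead (slx n) g w →
      ∃ g' ∈ L, (∀ v ∈ supp g', slx n v w) ∧ (g' ∈ M → g ∈ M) := by
    intro g hg w hw
    obtain ⟨u, v, huv, hv⟩ := exists_min w.length w rfl ⟨g, hg, hw⟩
    have h1 : IsLead (slx n) (mono K u * z v) w := by
      rw [huv]
      exact isLead_mul (compat_slx n) (isLead_mono (slx n) u) (hz v hv)
    obtain ⟨c, hc⟩ := supp_sub_smul (slx n) hw h1
    have h2 : c • (mono K u * z v) = (c • mono K u) * z v := by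
      rw [smul_mul_assoc]
    refine ⟨g - c • (mono K u * z v), ?_, hc, ?_⟩
    · rw [h2]
      exact L.sub_mem hg (L.smul_mem (c • mono K u) (hzL v hv))
    · intro h
      have h3 : c • (mono K u * z v) ∈ M := by
        rw [h2]
        exact M.smul_mem (c • mono K u) (Submodule.subset_span ⟨v, hv, rfl⟩)
      have := M.add_mem h h3
      simpa using this
  have key : ∀ w : FreeMonoid (Fin n), ∀ g ∈ L, (∀ v ∈ supp g, slx n v w) → g ∈ M := by
    intro w
    induction w using (IsWellFounded.wf (r := slx n)).induction with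
    | _ w ih =>
      intro g hg hgw
      by_cases h0 : g = 0
      · rw [h0]; exact zero_mem _
      · obtain ⟨w', hw'⟩ := exists_lead (slx n) h0
        obtain ⟨g', hg'L, hg', himp⟩ := step g hg w' hw'
        exact himp (ih w' (hgw w' hw'.1) g' hg'L hg')
  by_cases h0 : f = 0
  · rw [h0]; exact zero_mem _
  · obtain ⟨w', hw'⟩ := exists_lead (slx n) h0
    obtain ⟨g', hg'L, hg', himp⟩ := step f hf w' hw'
    exact himp (key w' g' hg'L hg')

/-- The minimal leading words of a finitely generated left ideal are finite in number. -/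
lemma finite_minLd {L : Submodule (FreeAlgebra K (Fin n)) (FreeAlgebra K (Fin n))}
    (hL : L.FG) : (minLd L).Finite := by
  classical
  have hex : ∀ w : FreeMonoid (Fin n), ∃ z : FreeAlgebra K (Fin n), w ∈ minLd L →
      z ∈ L ∧ IsLead (slx n) z w := by
    intro w
    by_cases hw : w ∈ minLd L
    · obtain ⟨f, hf, h⟩ := hw.1
      exact ⟨f, fun _ => ⟨hf, h⟩⟩
    · exact ⟨0, fun h => absurd h hw⟩
  choose z hz using hex
  obtain ⟨S, hS⟩ := hL
  -- finitely many `z w` generate `L`
  have h1 : ∀ s ∈ S, ∃ T : Finset (FreeAlgebra K (Fin n)), (T : Set _) ⊆ z '' minLd L ∧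
      s ∈ Submodule.span (FreeAlgebra K (Fin n)) (T : Set (FreeAlgebra K (Fin n))) := by
    intro s hs
    have hsL : s ∈ L := by rw [← hS]; exact Submodule.subset_span hs
    exact Submodule.mem_span_finite_of_mem_span
      (mem_span_min z (fun w hw => (hz w hw).1) (fun w hw => (hz w hw).2) hsL)
  choose! T hT1 hT2 using h1
  set T0 : Finset (FreeAlgebra K (Fin n)) := S.biUnion T with hT0
  have hT0sub : (T0 : Set (FreeAlgebra K (Fin n))) ⊆ z '' minLd L := by
    intro t ht
    obtain ⟨s, hs, hts⟩ := Finset.mem_biUnion.1 ht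
    exact hT1 s hs hts
  obtain ⟨F, hF, hFT⟩ := Finset.subset_set_image_iff.1 hT0sub
  have hLF : L ≤ Submodule.span (FreeAlgebra K (Fin n)) (z '' (F : Set (FreeMonoid (Fin n)))) := by
    rw [← hS, Submodule.span_le]
    intro s hs
    have h2 := hT2 s hs
    refine (Submodule.span_mono ?_) h2
    intro t ht
    have h3 : t ∈ T0 := Finset.mem_biUnion.2 ⟨s, hs, ht⟩
    rw [← hFT] at h3
    obtain ⟨w, hw, rfl⟩ := Finset.mem_image.1 h3
    exact ⟨w, hw, rfl⟩
  refine (Finset.finite_toSet F).subset ?_
  intro w' hw'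
  have h4 := hLF (hz w' hw').1
  rw [Submodule.mem_span_image_finset_iff_exists_fun'] at h4
  obtain ⟨c, hc⟩ := h4
  have h5 := lead_of_sum z (fun w hw => (hz w hw).2) c F (fun w hw => hF hw)
  have h6 : (∑ w ∈ F, c w * z w) = z w' := by
    rw [← hc]; rfl
  rw [h6] at h5
  have hlead' := (hz w' hw').2
  rcases h5 with h5 | ⟨u, w, hw, h5⟩
  · exfalso
    rw [h5] at hlead'
    have := hlead'.1
    simp [supp] at this
  · have h7 : w' = u * w := by
      by_contra hne
      have a1 := hlead'.2 _ h5.1 (Ne.symm hne)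
      have a2 := h5.2 _ hlead'.1 hne
      exact irrefl_of (slx n) _ (trans_of (slx n) a1 a2)
    by_cases hu : u = 1
    · rw [hu, one_mul] at h7
      rw [h7]; exact hw
    · exact absurd (hF hw).1 (hw'.2 u w h7 hu)

/-- A finitely generated left ideal of the free algebra that contains a nonzero two-sided ideal has
all long words as leading words. -/
theorem isLd_of_fg {L : Submodule (FreeAlgebra K (Fin n)) (FreeAlgebra K (Fin n))}
    (hL : L.FG) (I : TwoSidedIdeal (FreeAlgebra K (Fin n))) (hIL : ∀ x ∈ I, x ∈ L)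
    {p : FreeAlgebra K (Fin n)} (hp : p ∈ I) (hp0 : p ≠ 0) :
    ∃ D : ℕ, ∀ w : FreeMonoid (Fin n), D ≤ w.length → IsLd L w := by
  classical
  have hfin := finite_minLd hL
  obtain ⟨D, hD⟩ : ∃ D : ℕ, ∀ w ∈ minLd L, w.length ≤ D := by
    refine ⟨hfin.toFinset.sup FreeMonoid.length, fun w hw => ?_⟩
    exact Finset.le_sup (f := FreeMonoid.length) (hfin.mem_toFinset.2 hw)
  refine ⟨D, fun t ht => ?_⟩
  obtain ⟨q, hq⟩ := exists_lead (slx n) hp0
  have h1 : IsLd L (q * t) :=
    ⟨p * mono K t, hIL _ (I.mul_mem_right _ _ hp),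
      isLead_mul (compat_slx n) hq (isLead_mono (slx n) t)⟩
  obtain ⟨u, v, huv, hv⟩ := exists_min (q * t).length (q * t) rfl h1
  have hlen := hD v hv
  have h2 : FreeMonoid.toList q ++ FreeMonoid.toList t
      = FreeMonoid.toList u ++ FreeMonoid.toList v := by
    rw [← FreeMonoid.toList_mul, ← FreeMonoid.toList_mul, huv]
  rcases List.append_eq_append_iff.1 h2 with ⟨a, -, ha⟩ | ⟨a, -, ha⟩
  · -- `t = a ++ v`
    have h3 : t = FreeMonoid.ofList a * v := ha
    rw [h3]
    exact isLd_mul hv.1 _
  · -- `v = a ++ t`: lengths force `a = []`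
    have h4 : (FreeMonoid.toList v).length = a.length + (FreeMonoid.toList t).length := by
      rw [ha, List.length_append]
    have h5 : a = [] := by
      apply List.eq_nil_of_length_eq_zero
      have h6 : (FreeMonoid.toList v).length ≤ D := hlen
      have h7 : D ≤ (FreeMonoid.toList t).length := ht
      omega
    have h8 : v = t := by
      have : FreeMonoid.toList v = FreeMonoid.toList t := by rw [ha, h5]; rfl
      exact this
    rw [← h8]
    exact hv.1

/-- A finitely generated left ideal of the free algebra that contains a nonzero two-sided ideal has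
finite codimension. -/
theorem finCodim_of_fg {L : Submodule (FreeAlgebra K (Fin n)) (FreeAlgebra K (Fin n))}
    (hL : L.FG) (I : TwoSidedIdeal (FreeAlgebra K (Fin n))) (hIL : ∀ x ∈ I, x ∈ L)
    {p : FreeAlgebra K (Fin n)} (hp : p ∈ I) (hp0 : p ≠ 0) :
    FinCodim (L : Set (FreeAlgebra K (Fin n))) := by
  classical
  obtain ⟨D, hD⟩ := isLd_of_fg hL I hIL hp hp0
  refine ⟨Submodule.span K (mono K '' {w : FreeMonoid (Fin n) | FreeMonoid.toList w ∉
    leads (slx n) (L.restrictScalars K : Set (FreeAlgebra K (Fin n)))}), ?_, ?_⟩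
  · apply FiniteDimensional.span_of_finite
    apply Set.Finite.image
    refine (List.finite_length_lt (Fin n) D).subset ?_
    intro w hw
    by_contra hlen
    apply hw
    have h1 : D ≤ (w : FreeMonoid (Fin n)).length := not_lt.1 hlen
    obtain ⟨f, hf, hlead⟩ := hD w h1
    exact ⟨f, hf, hlead⟩
  · intro x
    obtain ⟨a, ha, v, hv, h⟩ := Submodule.mem_sup.1 (mem_sup (slx n) (L.restrictScalars K) x)
    exact ⟨a, ha, v, hv, h.symm⟩

end Pool.Agent.Helper51.Sagbi
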