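import Pool.Agent.Helper51.Sagbi.Crit

/-!
# Finitely presented nil algebras and the question for finitely generated ideals

Helper file for MP_0d1f08_al.
-/

set_option autoImplicit false

namespace Pool.Agent.Helper51.Sagbi

open FreeAlgebra

/-- Every finitely presented nil algebra over `K` is finite-dimensional: if `T` is a finite set of elements
of the non-unital free algebra `F` of rank `n` and `F` is nil modulo the ideal generated by `T`, then this
ideal has finite codimension. -/
def FpNilFin (K : Type) [Field K] : Prop :=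
  ∀ (n : ℕ) (T : Set (FreeAlgebra K (Fin n))), T.Finite → AugZero T →
    NilMod (TwoSidedIdeal.span T) → FinCodim {x | x ∈ TwoSidedIdeal.span T}

/-- The question Q1 over `K` for finitely generated ideals `I`. -/
def QuestionFg (K : Type) [Field K] : Prop :=
  ∀ (n : ℕ) (S T : Set (FreeAlgebra K (Fin n))), S.Finite → T.Finite → AugZero S →
    (∀ x ∈ TwoSidedIdeal.span T, x ∈ subalg S) → NilMod (TwoSidedIdeal.span T) →
    FinCodim (subalg S : Set (FreeAlgebra K (Fin n)))

variable {K : Type} [Field K] {n : ℕ}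

/-- The inclusion of the free algebra of rank `n` in that of rank `n + 1`. -/
noncomputable def emb (K : Type) [Field K] (n : ℕ) :
    FreeAlgebra K (Fin n) →ₐ[K] FreeAlgebra K (Fin (n + 1)) :=
  FreeAlgebra.lift K (fun i => ι K (Fin.castSucc i))

/-- The last generator. -/
noncomputable def vv (K : Type) [Field K] (n : ℕ) : FreeAlgebra K (Fin (n + 1)) :=
  ι K (Fin.last n)

/-- The commutator of `x_i` and the last generator. -/
noncomputable def comm (K : Type) [Field K] (n : ℕ) (i : Fin n) : FreeAlgebra K (Fin (n + 1)) :=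
  ι K (Fin.castSucc i) * vv K n - vv K n * ι K (Fin.castSucc i)

/-- The relations of the algebra `R[v]/(v^2)`. -/
noncomputable def rels (T : Set (FreeAlgebra K (Fin n))) : Set (FreeAlgebra K (Fin (n + 1))) :=
  (emb K n '' T) ∪ Set.range (comm K n) ∪ {vv K n * vv K n}

/-- The generators of the subalgebra. -/
noncomputable def gens (T : Set (FreeAlgebra K (Fin n))) : Set (FreeAlgebra K (Fin (n + 1))) :=
  Set.range (fun i : Fin n => ι K (Fin.castSucc i)) ∪
    ((fun p : FreeAlgebra K (Fin (n + 1)) × FreeAlgebra K (Fin (n + 1)) ×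
      FreeAlgebra K (Fin (n + 1)) => p.1 * p.2.1 * p.2.2) ''
      (({1, vv K n} : Set _) ×ˢ (rels T ×ˢ ({1, vv K n} : Set _))))

lemma finite_rels {T : Set (FreeAlgebra K (Fin n))} (hT : T.Finite) : (rels T).Finite :=
  ((hT.image _).union (Set.finite_range _)).union (Set.finite_singleton _)

lemma finite_gens {T : Set (FreeAlgebra K (Fin n))} (hT : T.Finite) : (gens T).Finite := by
  refine (Set.finite_range _).union (Set.Finite.image _ ?_)
  exact ((Set.finite_singleton _).insert _).prod ((finite_rels hT).prod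
    ((Set.finite_singleton _).insert _))

lemma aug_emb (x : FreeAlgebra K (Fin n)) :
    FreeAlgebra.lift K (0 : Fin (n + 1) → K) (emb K n x) = FreeAlgebra.lift K (0 : Fin n → K) x := by
  have : (FreeAlgebra.lift K (0 : Fin (n + 1) → K)).comp (emb K n)
      = FreeAlgebra.lift K (0 : Fin n → K) := by
    apply FreeAlgebra.hom_ext
    funext i
    simp [emb]
  exact DFunLike.congr_fun this x

lemma aug_vv : FreeAlgebra.lift K (0 : Fin (n + 1) → K) (vv K n) = 0 := by
  simp [vv]

lemma augZero_rels {T : Set (FreeAlgebra K (Fin n))} (hT : AugZero T) : AugZero (rels T) := by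
  rintro x ((⟨t, ht, rfl⟩ | ⟨i, rfl⟩) | rfl)
  · rw [aug_emb]; exact hT t ht
  · simp [comm, aug_vv]
  · rw [map_mul, aug_vv, zero_mul]

lemma augZero_gens {T : Set (FreeAlgebra K (Fin n))} (hT : AugZero T) : AugZero (gens T) := by
  rintro x (⟨i, rfl⟩ | ⟨⟨u, g, u'⟩, ⟨-, hg, -⟩, rfl⟩)
  · simp
  · simp only [map_mul]
    rw [augZero_rels hT g hg, mul_zero, zero_mul]

/-! ### The ideal is contained in the subalgebra -/

/-- The unital subalgebra. -/
noncomputable def A1 (T : Set (FreeAlgebra K (Fin n))) : Submodule K (FreeAlgebra K (Fin (n + 1))) :=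
  1 ⊔ subsp (gens T)

lemma one_mem_A1 (T : Set (FreeAlgebra K (Fin n))) : (1 : FreeAlgebra K (Fin (n + 1))) ∈ A1 T :=
  Submodule.mem_sup_left (Submodule.one_le.1 le_rfl)

lemma A1_mul {T : Set (FreeAlgebra K (Fin n))} {a b : FreeAlgebra K (Fin (n + 1))}
    (ha : a ∈ A1 T) (hb : b ∈ A1 T) : a * b ∈ A1 T := by
  have h : A1 T * A1 T ≤ A1 T := by
    unfold A1
    rw [Submodule.mul_sup, Submodule.sup_mul, Submodule.sup_mul, one_mul, mul_one, one_mul]
    refine sup_le (sup_le le_sup_left le_sup_right) (sup_le le_sup_right ?_)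
    exact (subsp_mul_self _).trans le_sup_right
  exact h (Submodule.mul_mem_mul ha hb)

lemma gens_mem_A1 {T : Set (FreeAlgebra K (Fin n))} {g : FreeAlgebra K (Fin (n + 1))}
    (hg : g ∈ gens T) : g ∈ A1 T :=
  Submodule.mem_sup_right (NonUnitalAlgebra.subset_adjoin K hg)

lemma x_mem_A1 (T : Set (FreeAlgebra K (Fin n))) (i : Fin n) :
    ι K (Fin.castSucc i) ∈ A1 T := gens_mem_A1 (Or.inl ⟨i, rfl⟩)

lemma sandwich_mem {T : Set (FreeAlgebra K (Fin n))} {g : FreeAlgebra K (Fin (n + 1))}
    (hg : g ∈ rels T) {u u' : FreeAlgebra K (Fin (n + 1))} (hu : u = 1 ∨ u = vv K n)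
    (hu' : u' = 1 ∨ u' = vv K n) : u * g * u' ∈ subsp (gens T) :=
  NonUnitalAlgebra.subset_adjoin K (Or.inr ⟨(u, g, u'), ⟨by simpa using hu, hg, by simpa using hu'⟩, rfl⟩)

lemma rels_mem_A1 {T : Set (FreeAlgebra K (Fin n))} {g : FreeAlgebra K (Fin (n + 1))}
    (hg : g ∈ rels T) : g ∈ A1 T := by
  have := sandwich_mem hg (u := 1) (u' := 1) (Or.inl rfl) (Or.inl rfl)
  rw [one_mul, mul_one] at this
  exact Submodule.mem_sup_right this

/-- Every element is in `A¹ + A¹ v`. -/
lemma left_dec (T : Set (FreeAlgebra K (Fin n))) (r : FreeAlgebra K (Fin (n + 1))) :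
    ∃ a ∈ A1 T, ∃ b ∈ A1 T, r = a + b * vv K n := by
  have key : ∀ a ∈ A1 T, ∀ b ∈ A1 T, ∃ a' ∈ A1 T, ∃ b' ∈ A1 T,
      (a + b * vv K n) * r = a' + b' * vv K n := by
    induction r using FreeAlgebra.induction with
    | grade0 c =>
      intro a ha b hb
      refine ⟨c • a, Submodule.smul_mem _ c ha, c • b, Submodule.smul_mem _ c hb, ?_⟩
      rw [← Algebra.commutes, ← Algebra.smul_def, smul_add, smul_mul_assoc]
    | grade1 i =>
      intro a ha b hb
      induction i using Fin.lastCases with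
      | last =>
        refine ⟨b * (vv K n * vv K n), A1_mul hb (rels_mem_A1 (Or.inr rfl)), a, ha, ?_⟩
        show (a + b * vv K n) * vv K n = _
        rw [add_mul, mul_assoc]
        exact add_comm _ _
      | cast i =>
        refine ⟨a * ι K (Fin.castSucc i) - b * comm K n i, ?_, b * ι K (Fin.castSucc i),
          A1_mul hb (x_mem_A1 T i), ?_⟩
        · exact Submodule.sub_mem _ (A1_mul ha (x_mem_A1 T i))
            (A1_mul hb (rels_mem_A1 (Or.inl (Or.inr ⟨i, rfl⟩))))
        · unfold comm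
          noncomm_ring
    | mul r s hr hs =>
      intro a ha b hb
      obtain ⟨a', ha', b', hb', h⟩ := hr a ha b hb
      obtain ⟨a'', ha'', b'', hb'', h'⟩ := hs a' ha' b' hb'
      exact ⟨a'', ha'', b'', hb'', by rw [← mul_assoc, h, h']⟩
    | add r s hr hs =>
      intro a ha b hb
      obtain ⟨a', ha', b', hb', h⟩ := hr a ha b hb
      obtain ⟨a'', ha'', b'', hb'', h'⟩ := hs a ha b hb
      refine ⟨a' + a'', Submodule.add_mem _ ha' ha'', b' + b'', Submodule.add_mem _ hb' hb'', ?_⟩
      rw [mul_add, h, h']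
      noncomm_ring
  obtain ⟨a, ha, b, hb, h⟩ := key 1 (one_mem_A1 T) 0 (zero_mem _)
  exact ⟨a, ha, b, hb, by simpa using h⟩

/-- Every element is in `A¹ + v A¹`. -/
lemma right_dec (T : Set (FreeAlgebra K (Fin n))) (r : FreeAlgebra K (Fin (n + 1))) :
    ∃ a ∈ A1 T, ∃ b ∈ A1 T, r = a + vv K n * b := by
  have key : ∀ a ∈ A1 T, ∀ b ∈ A1 T, ∃ a' ∈ A1 T, ∃ b' ∈ A1 T,
      r * (a + vv K n * b) = a' + vv K n * b' := by
    induction r using FreeAlgebra.induction with
    | grade0 c =>
      intro a ha b hb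
      refine ⟨c • a, Submodule.smul_mem _ c ha, c • b, Submodule.smul_mem _ c hb, ?_⟩
      rw [← Algebra.smul_def, smul_add, mul_smul_comm]
    | grade1 i =>
      intro a ha b hb
      induction i using Fin.lastCases with
      | last =>
        refine ⟨(vv K n * vv K n) * b, A1_mul (rels_mem_A1 (Or.inr rfl)) hb, a, ha, ?_⟩
        show vv K n * (a + vv K n * b) = _
        rw [mul_add, mul_assoc]
        exact add_comm _ _
      | cast i =>
        refine ⟨ι K (Fin.castSucc i) * a + comm K n i * b, ?_, ι K (Fin.castSucc i) * b,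
          A1_mul (x_mem_A1 T i) hb, ?_⟩
        · exact Submodule.add_mem _ (A1_mul (x_mem_A1 T i) ha)
            (A1_mul (rels_mem_A1 (Or.inl (Or.inr ⟨i, rfl⟩))) hb)
        · unfold comm
          noncomm_ring
    | mul r s hr hs =>
      intro a ha b hb
      obtain ⟨a', ha', b', hb', h⟩ := hs a ha b hb
      obtain ⟨a'', ha'', b'', hb'', h'⟩ := hr a' ha' b' hb'
      exact ⟨a'', ha'', b'', hb'', by rw [mul_assoc, h, h']⟩
    | add r s hr hs =>
      intro a ha b hb
      obtain ⟨a', ha', b', hb', h⟩ := hr a ha b hb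
      obtain ⟨a'', ha'', b'', hb'', h'⟩ := hs a ha b hb
      refine ⟨a' + a'', Submodule.add_mem _ ha' ha'', b' + b'', Submodule.add_mem _ hb' hb'', ?_⟩
      rw [add_mul, h, h']
      noncomm_ring
  obtain ⟨a, ha, b, hb, h⟩ := key 1 (one_mem_A1 T) 0 (zero_mem _)
  exact ⟨a, ha, b, hb, by simpa using h⟩

lemma A1_mul_subsp {T : Set (FreeAlgebra K (Fin n))} {a b : FreeAlgebra K (Fin (n + 1))}
    (ha : a ∈ A1 T) (hb : b ∈ subsp (gens T)) : a * b ∈ subsp (gens T) := by
  have h : A1 T * subsp (gens T) ≤ subsp (gens T) := by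
    unfold A1
    rw [Submodule.sup_mul, one_mul]
    exact sup_le le_rfl (subsp_mul_self _)
  exact h (Submodule.mul_mem_mul ha hb)

lemma subsp_mul_A1 {T : Set (FreeAlgebra K (Fin n))} {a b : FreeAlgebra K (Fin (n + 1))}
    (ha : a ∈ subsp (gens T)) (hb : b ∈ A1 T) : a * b ∈ subsp (gens T) := by
  have h : subsp (gens T) * A1 T ≤ subsp (gens T) := by
    unfold A1
    rw [Submodule.mul_sup, mul_one]
    exact sup_le le_rfl (subsp_mul_self _)
  exact h (Submodule.mul_mem_mul ha hb)

lemma rel_sandwich {T : Set (FreeAlgebra K (Fin n))} {g : FreeAlgebra K (Fin (n + 1))}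
    (hg : g ∈ rels T) (r r' : FreeAlgebra K (Fin (n + 1))) : r * g * r' ∈ subsp (gens T) := by
  obtain ⟨a, ha, b, hb, rfl⟩ := left_dec T r
  obtain ⟨c, hc, d, hd, rfl⟩ := right_dec T r'
  have h1 := sandwich_mem hg (u := 1) (u' := 1) (Or.inl rfl) (Or.inl rfl)
  have h2 := sandwich_mem hg (u := vv K n) (u' := 1) (Or.inr rfl) (Or.inl rfl)
  have h3 := sandwich_mem hg (u := 1) (u' := vv K n) (Or.inl rfl) (Or.inr rfl)
  have h4 := sandwich_mem hg (u := vv K n) (u' := vv K n) (Or.inr rfl) (Or.inr rfl)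
  have e : (a + b * vv K n) * g * (c + vv K n * d)
      = a * (1 * g * 1) * c + a * (1 * g * vv K n) * d + b * (vv K n * g * 1) * c
        + b * (vv K n * g * vv K n) * d := by noncomm_ring
  rw [e]
  refine Submodule.add_mem _ (Submodule.add_mem _ (Submodule.add_mem _ ?_ ?_) ?_) ?_
  · exact subsp_mul_A1 (A1_mul_subsp ha h1) hc
  · exact subsp_mul_A1 (A1_mul_subsp ha h3) hd
  · exact subsp_mul_A1 (A1_mul_subsp hb h2) hc
  · exact subsp_mul_A1 (A1_mul_subsp hb h4) hd

lemma span_rels_le {T : Set (FreeAlgebra K (Fin n))} {x : FreeAlgebra K (Fin (n + 1))}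
    (hx : x ∈ TwoSidedIdeal.span (rels T)) : x ∈ subalg (gens T) := by
  -- the largest ideal contained in the subalgebra
  let J : TwoSidedIdeal (FreeAlgebra K (Fin (n + 1))) :=
    TwoSidedIdeal.mk' {x | ∀ r r' : FreeAlgebra K (Fin (n + 1)), r * x * r' ∈ subsp (gens T)}
      (by intro r r'; simp [zero_mem])
      (fun {x y} hx hy r r' => by
        rw [mul_add, add_mul]
        exact Submodule.add_mem _ (hx r r') (hy r r'))
      (fun {x} hx r r' => by
        rw [mul_neg, neg_mul]
        exact Submodule.neg_mem _ (hx r r'))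
      (fun {x y} hy r r' => by
        rw [← mul_assoc r x y]
        exact hy (r * x) r')
      (fun {x y} hx r r' => by
        have : r * (x * y) * r' = r * x * (y * r') := by simp only [mul_assoc]
        rw [this]
        exact hx r (y * r'))
  have hJ : TwoSidedIdeal.span (rels T) ≤ J := by
    rw [TwoSidedIdeal.span_le]
    intro g hg
    show g ∈ J
    rw [TwoSidedIdeal.mem_mk']
    exact fun r r' => rel_sandwich hg r r'
  have h1 : x ∈ J := hJ hx
  rw [TwoSidedIdeal.mem_mk'] at h1
  have h2 := h1 1 1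
  rw [one_mul, mul_one] at h2
  exact h2

/-! ### Nilpotency -/

lemma emb_mem {T : Set (FreeAlgebra K (Fin n))} {x : FreeAlgebra K (Fin n)}
    (hx : x ∈ TwoSidedIdeal.span T) : emb K n x ∈ TwoSidedIdeal.span (rels T) := by
  let J : TwoSidedIdeal (FreeAlgebra K (Fin n)) :=
    TwoSidedIdeal.comap (emb K n) (TwoSidedIdeal.span (rels T))
  have hJ : TwoSidedIdeal.span T ≤ J := by
    rw [TwoSidedIdeal.span_le]
    intro t ht
    show t ∈ J
    rw [TwoSidedIdeal.mem_comap]
    exact TwoSidedIdeal.subset_span (Or.inl (Or.inl ⟨t, ht, rfl⟩))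
  have := hJ hx
  rwa [TwoSidedIdeal.mem_comap] at this

/-- The last generator is central modulo the relations. -/
lemma comm_mem (T : Set (FreeAlgebra K (Fin n))) (a : FreeAlgebra K (Fin n)) :
    emb K n a * vv K n - vv K n * emb K n a ∈ TwoSidedIdeal.span (rels T) := by
  induction a using FreeAlgebra.induction with
  | grade0 c =>
    rw [AlgHom.commutes, Algebra.commutes, sub_self]
    exact TwoSidedIdeal.zero_mem _
  | grade1 i =>
    have : emb K n (ι K i) = ι K (Fin.castSucc i) := by simp [emb]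
    rw [this]
    exact TwoSidedIdeal.subset_span (Or.inl (Or.inr ⟨i, rfl⟩))
  | mul a b ha hb =>
    have e : emb K n (a * b) * vv K n - vv K n * emb K n (a * b)
        = emb K n a * (emb K n b * vv K n - vv K n * emb K n b)
          + (emb K n a * vv K n - vv K n * emb K n a) * emb K n b := by
      rw [map_mul]; noncomm_ring
    rw [e]
    exact TwoSidedIdeal.add_mem _ (TwoSidedIdeal.mul_mem_left _ _ _ hb)
      (TwoSidedIdeal.mul_mem_right _ _ _ ha)
  | add a b ha hb =>
    have e : emb K n (a + b) * vv K n - vv K n * emb K n (a + b)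
        = (emb K n a * vv K n - vv K n * emb K n a) + (emb K n b * vv K n - vv K n * emb K n b) := by
      rw [map_add]; noncomm_ring
    rw [e]
    exact TwoSidedIdeal.add_mem _ ha hb

/-- `f` is congruent to `a + b v`. -/
def Nf (T : Set (FreeAlgebra K (Fin n))) (f : FreeAlgebra K (Fin (n + 1)))
    (a b : FreeAlgebra K (Fin n)) : Prop :=
  f - (emb K n a + emb K n b * vv K n) ∈ TwoSidedIdeal.span (rels T)

lemma Nf.mul {T : Set (FreeAlgebra K (Fin n))} {f g : FreeAlgebra K (Fin (n + 1))}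
    {a b c d : FreeAlgebra K (Fin n)} (hf : Nf T f a b) (hg : Nf T g c d) :
    Nf T (f * g) (a * c) (a * d + b * c) := by
  unfold Nf at *
  have h1 := comm_mem T c
  have h2 := comm_mem T d
  have h3 : vv K n * vv K n ∈ TwoSidedIdeal.span (rels T) :=
    TwoSidedIdeal.subset_span (Or.inr rfl)
  have e : f * g - (emb K n (a * c) + emb K n (a * d + b * c) * vv K n)
      = (f - (emb K n a + emb K n b * vv K n)) * g
        + (emb K n a + emb K n b * vv K n) * (g - (emb K n c + emb K n d * vv K n))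
        - (emb K n b * (emb K n c * vv K n - vv K n * emb K n c))
        - (emb K n b * (emb K n d * vv K n - vv K n * emb K n d)) * vv K n
        + (emb K n b * emb K n d) * (vv K n * vv K n) := by
    simp only [map_mul, map_add]
    noncomm_ring
  rw [e]
  refine TwoSidedIdeal.add_mem _ (TwoSidedIdeal.sub_mem _ (TwoSidedIdeal.sub_mem _
    (TwoSidedIdeal.add_mem _ ?_ ?_) ?_) ?_) ?_
  · exact TwoSidedIdeal.mul_mem_right _ _ _ hf
  · exact TwoSidedIdeal.mul_mem_left _ _ _ hg
  · exact TwoSidedIdeal.mul_mem_left _ _ _ h1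
  · exact TwoSidedIdeal.mul_mem_right _ _ _ (TwoSidedIdeal.mul_mem_left _ _ _ h2)
  · exact TwoSidedIdeal.mul_mem_left _ _ _ h3

lemma exists_nf (T : Set (FreeAlgebra K (Fin n))) (f : FreeAlgebra K (Fin (n + 1))) :
    ∃ a b, Nf T f a b := by
  induction f using FreeAlgebra.induction with
  | grade0 c =>
    refine ⟨algebraMap K _ c, 0, ?_⟩
    unfold Nf
    rw [AlgHom.commutes, map_zero, zero_mul, add_zero, sub_self]
    exact TwoSidedIdeal.zero_mem _
  | grade1 i =>
    induction i using Fin.lastCases with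
    | last =>
      refine ⟨0, 1, ?_⟩
      unfold Nf
      have : ι K (Fin.last n) - (emb K n 0 + emb K n 1 * vv K n) = 0 := by
        rw [map_zero, map_one, one_mul, zero_add]
        exact sub_self _
      rw [this]
      exact TwoSidedIdeal.zero_mem _
    | cast i =>
      refine ⟨ι K i, 0, ?_⟩
      unfold Nf
      have : ι K (Fin.castSucc i) - (emb K n (ι K i) + emb K n 0 * vv K n) = 0 := by
        simp [emb]
      rw [this]
      exact TwoSidedIdeal.zero_mem _
  | mul f g hf hg =>
    obtain ⟨a, b, h1⟩ := hf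
    obtain ⟨c, d, h2⟩ := hg
    exact ⟨_, _, h1.mul h2⟩
  | add f g hf hg =>
    obtain ⟨a, b, h1⟩ := hf
    obtain ⟨c, d, h2⟩ := hg
    refine ⟨a + c, b + d, ?_⟩
    unfold Nf at *
    have e : f + g - (emb K n (a + c) + emb K n (b + d) * vv K n)
        = (f - (emb K n a + emb K n b * vv K n)) + (g - (emb K n c + emb K n d * vv K n)) := by
      rw [map_add, map_add]; noncomm_ring
    rw [e]
    exact TwoSidedIdeal.add_mem _ h1 h2

lemma aug_of_mem_span {X : Type} {T : Set (FreeAlgebra K X)} (hT : AugZero T)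
    {x : FreeAlgebra K X} (hx : x ∈ TwoSidedIdeal.span T) :
    FreeAlgebra.lift K (0 : X → K) x = 0 := by
  have h : TwoSidedIdeal.span T ≤ TwoSidedIdeal.ker (FreeAlgebra.lift K (0 : X → K)) := by
    rw [TwoSidedIdeal.span_le]
    intro t ht
    show t ∈ TwoSidedIdeal.ker _
    rw [TwoSidedIdeal.mem_ker]
    exact hT t ht
  have := h hx
  rwa [TwoSidedIdeal.mem_ker] at this

lemma nilMod_rels {T : Set (FreeAlgebra K (Fin n))} (hT : AugZero T)
    (hnil : NilMod (TwoSidedIdeal.span T)) : NilMod (TwoSidedIdeal.span (rels T)) := by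
  intro f hf
  obtain ⟨a, b, hab⟩ := exists_nf T f
  have ha : FreeAlgebra.lift K (0 : Fin n → K) a = 0 := by
    have h1 := aug_of_mem_span (augZero_rels hT) hab
    rw [map_sub, map_add, map_mul, aug_vv, mul_zero, add_zero, hf, aug_emb, zero_sub,
      neg_eq_zero] at h1
    exact h1
  obtain ⟨m, hm, ham⟩ := hnil a ha
  have hpow : ∀ k : ℕ, ∃ c, Nf T (f ^ k) (a ^ k) c := by
    intro k
    induction k with
    | zero =>
      refine ⟨0, ?_⟩
      unfold Nf
      have : f ^ 0 - (emb K n (a ^ 0) + emb K n 0 * vv K n) = 0 := by simp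
      rw [this]
      exact TwoSidedIdeal.zero_mem _
    | succ k ih =>
      obtain ⟨c, hc⟩ := ih
      refine ⟨a ^ k * b + c * a, ?_⟩
      rw [pow_succ, pow_succ]
      exact hc.mul hab
  obtain ⟨c, hc⟩ := hpow m
  have h1 : Nf T (f ^ m) 0 c := by
    unfold Nf at hc ⊢
    have h2 := emb_mem ham
    have e : f ^ m - (emb K n 0 + emb K n c * vv K n)
        = (f ^ m - (emb K n (a ^ m) + emb K n c * vv K n)) + emb K n (a ^ m) := by
      rw [map_zero]; noncomm_ring
    rw [e]
    exact TwoSidedIdeal.add_mem _ hc h2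
  have h3 := h1.mul h1
  unfold Nf at h3
  refine ⟨m + m, by omega, ?_⟩
  rw [pow_add]
  have e : f ^ m * f ^ m - (emb K n (0 * 0) + emb K n (0 * c + c * 0) * vv K n)
      = f ^ m * f ^ m := by simp
  rwa [e] at h3

/-! ### The codimension -/

/-- The homomorphism to two by two matrices. -/
noncomputable def mat (K : Type) [Field K] (n : ℕ) :
    FreeAlgebra K (Fin (n + 1)) →ₐ[K] Matrix (Fin 2) (Fin 2) (FreeAlgebra K (Fin n)) :=
  FreeAlgebra.lift K (Fin.lastCases (motive := fun _ => Matrix (Fin 2) (Fin 2) (FreeAlgebra K (Fin n)))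
    !![0, 1; 0, 0] (fun i => !![ι K i, 0; 0, ι K i]))

lemma mat_vv : mat K n (vv K n) = !![0, 1; 0, 0] := by
  simp [mat, vv]

lemma mat_x (i : Fin n) : mat K n (ι K (Fin.castSucc i)) = !![ι K i, 0; 0, ι K i] := by
  simp [mat]

lemma mat_emb (a : FreeAlgebra K (Fin n)) : mat K n (emb K n a) = !![a, 0; 0, a] := by
  induction a using FreeAlgebra.induction with
  | grade0 c =>
    rw [AlgHom.commutes, AlgHom.commutes]
    ext i j
    fin_cases i <;> fin_cases j <;> simp [Matrix.algebraMap_matrix_apply]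
  | grade1 i =>
    have : emb K n (ι K i) = ι K (Fin.castSucc i) := by simp [emb]
    rw [this, mat_x]
  | mul a b ha hb =>
    rw [map_mul, map_mul, ha, hb]
    simp [Matrix.mul_fin_two]
  | add a b ha hb =>
    rw [map_add, map_add, ha, hb]
    ext i j
    fin_cases i <;> fin_cases j <;> simp

lemma mat_comm (i : Fin n) : mat K n (comm K n i) = 0 := by
  unfold comm
  rw [map_sub, map_mul, map_mul, mat_x, mat_vv]
  ext a b
  fin_cases a <;> fin_cases b <;> simp [Matrix.mul_apply, Fin.sum_univ_two]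

lemma entry_gens {T : Set (FreeAlgebra K (Fin n))} {g : FreeAlgebra K (Fin (n + 1))}
    (hg : g ∈ gens T) : mat K n g 0 1 ∈ TwoSidedIdeal.span T := by
  rcases hg with ⟨i, rfl⟩ | ⟨⟨u, g, u'⟩, ⟨hu, hg, hu'⟩, rfl⟩
  · simp only [mat_x]
    simp [TwoSidedIdeal.zero_mem]
  · have hu1 : u = 1 ∨ u = vv K n := by simpa using hu
    have hu2 : u' = 1 ∨ u' = vv K n := by simpa using hu'
    show mat K n (u * g * u') 0 1 ∈ TwoSidedIdeal.span T
    rw [map_mul, map_mul]
    rcases hg with (⟨t, ht, rfl⟩ | ⟨i, rfl⟩) | rfl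
    · have htT : t ∈ TwoSidedIdeal.span T := TwoSidedIdeal.subset_span ht
      rw [mat_emb]
      rcases hu1 with rfl | rfl <;> rcases hu2 with rfl | rfl <;>
        simp [mat_vv, Matrix.mul_fin_two, TwoSidedIdeal.zero_mem, htT]
    · rw [mat_comm]
      simp [TwoSidedIdeal.zero_mem]
    · have hv2 : mat K n (vv K n * vv K n) = 0 := by
        rw [map_mul, mat_vv]
        ext a b
        fin_cases a <;> fin_cases b <;> simp [Matrix.mul_apply, Fin.sum_univ_two]
      have h0 : mat K n u * mat K n (vv K n * vv K n) * mat K n u' = 0 := by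
        rw [hv2, mul_zero, zero_mul]
      rw [h0, Matrix.zero_apply]
      exact TwoSidedIdeal.zero_mem _

lemma entry_subalg {T : Set (FreeAlgebra K (Fin n))} {x : FreeAlgebra K (Fin (n + 1))}
    (hx : x ∈ subalg (gens T)) : mat K n x 0 1 ∈ TwoSidedIdeal.span T := by
  have hx' : x ∈ NonUnitalAlgebra.adjoin K (gens T) := hx
  clear hx
  induction hx' using NonUnitalAlgebra.adjoin_induction with
  | mem s hs => exact entry_gens hs
  | add x y _ _ hx hy =>
    rw [map_add, Matrix.add_apply]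
    exact TwoSidedIdeal.add_mem _ hx hy
  | zero =>
    rw [map_zero, Matrix.zero_apply]
    exact TwoSidedIdeal.zero_mem _
  | mul x y _ _ hx hy =>
    rw [map_mul, Matrix.mul_apply, Fin.sum_univ_two]
    exact TwoSidedIdeal.add_mem _ (TwoSidedIdeal.mul_mem_left _ _ _ hy)
      (TwoSidedIdeal.mul_mem_right _ _ _ hx)
  | smul c x _ hx =>
    rw [map_smul, Matrix.smul_apply, Algebra.smul_def]
    exact TwoSidedIdeal.mul_mem_left _ _ _ hx

theorem fp_of_question (h : QuestionFg K) : FpNilFin K := by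
  intro n T hT hT0 hnil
  have h1 := h (n + 1) (gens T) (rels T) (finite_gens hT) (finite_rels hT) (augZero_gens hT0)
    (fun x hx => span_rels_le hx) (nilMod_rels hT0 hnil)
  obtain ⟨V, hV, hVx⟩ := h1
  let ent : FreeAlgebra K (Fin (n + 1)) →ₗ[K] FreeAlgebra K (Fin n) :=
    { toFun := fun x => mat K n x 0 1
      map_add' := fun x y => by rw [map_add]; rfl
      map_smul' := fun c x => by rw [map_smul]; rfl }
  refine ⟨V.map ent, inferInstance, ?_⟩
  intro b
  obtain ⟨a, ha, v, hv, hav⟩ := hVx (emb K n b * vv K n)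
  refine ⟨mat K n a 0 1, entry_subalg ha, ent v, ⟨v, hv, rfl⟩, ?_⟩
  have h2 : b = mat K n (emb K n b * vv K n) 0 1 := by
    rw [map_mul, mat_emb, mat_vv]
    simp [Matrix.mul_fin_two]
  rw [h2, hav, map_add]
  rfl

theorem question_of_fp (h : FpNilFin K) : QuestionFg K := by
  intro n S T _ hT hS0 hTS hnil
  have hT0 : AugZero T := fun t ht => aug_adjoin hS0 (hTS t (TwoSidedIdeal.subset_span ht))
  obtain ⟨V, hV, hVx⟩ := h n T hT hT0 hnil
  refine ⟨V, hV, fun x => ?_⟩
  obtain ⟨a, ha, v, hv, hav⟩ := hVx x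
  exact ⟨a, hTS a ha, v, hv, hav⟩

end Pool.Agent.Helper51.Sagbi
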