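import Mathlib

/-!
# The Kleene star of a finite language is regular

Helper file for MP_0d1f08_al.
-/

set_option autoImplicit false

namespace Pool.Agent.Helper51.Sagbi

variable {X : Type}

/-- The remainders of words of `L` after reading `x`. -/
def rest (L : Language X) (x : List X) : Set (List X) :=
  {t | ∃ x1 p, x = x1 ++ p ∧ x1 ∈ KStar.kstar L ∧ (p ++ t ∈ L ∨ (p = [] ∧ t = []))}

lemma rest_append (L : Language X) {w x : List X} (hw : w ∈ L) {t : List X} (ht : t ∈ rest L x) :
    t ∈ rest L (w ++ x) := by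
  obtain ⟨x1, p, rfl, h1, h2⟩ := ht
  refine ⟨w ++ x1, p, by simp, ?_, h2⟩
  rw [← Language.one_add_self_mul_kstar_eq_kstar]
  right
  exact Language.mem_mul.2 ⟨w, hw, x1, h1, rfl⟩

lemma exists_rest (L : Language X) : ∀ (ws : List (List X)), (∀ w ∈ ws, w ∈ L) →
    ∀ x y : List X, x ++ y = ws.flatten →
      ∃ t ∈ rest L x, ∃ y' ∈ KStar.kstar L, y = t ++ y' := by
  intro ws
  induction ws with
  | nil =>
    intro _ x y h
    have h1 : x = [] ∧ y = [] := by simpa using h
    refine ⟨[], ⟨[], [], ?_, ?_, Or.inr ⟨rfl, rfl⟩⟩, [], ?_, ?_⟩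
    · rw [h1.1]; rfl
    · exact Language.nil_mem_kstar L
    · exact Language.nil_mem_kstar L
    · rw [h1.2]; rfl
  | cons w ws ih =>
    intro hws x y h
    rw [List.flatten_cons] at h
    have hw : w ∈ L := hws w (by simp)
    have hws' : ∀ v ∈ ws, v ∈ L := fun v hv => hws v (by simp [hv])
    have hflat : ws.flatten ∈ KStar.kstar L := Language.mem_kstar.2 ⟨ws, rfl, hws'⟩
    rcases List.append_eq_append_iff.1 h with ⟨a', ha1, ha2⟩ | ⟨c', hc1, hc2⟩
    · -- w = x ++ a', y = a' ++ flatten
      exact ⟨a', ⟨[], x, rfl, Language.nil_mem_kstar L, Or.inl (ha1 ▸ hw)⟩, ws.flatten, hflat, ha2⟩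
    · -- x = w ++ c', flatten = c' ++ y
      obtain ⟨t, ht, y', hy', hy⟩ := ih hws' c' y hc2.symm
      refine ⟨t, ?_, y', hy', hy⟩
      rw [hc1]
      exact rest_append L hw ht

lemma leftQuotient_eq (L : Language X) (x : List X) :
    (KStar.kstar L).leftQuotient x = {y | ∃ t ∈ rest L x, ∃ y' ∈ KStar.kstar L, y = t ++ y'} := by
  ext y
  rw [Language.mem_leftQuotient]
  constructor
  · intro h
    obtain ⟨ws, hws, hmem⟩ := Language.mem_kstar.1 h
    exact exists_rest L ws hmem x y hws
  · rintro ⟨t, ⟨x1, p, rfl, h1, h2⟩, y', hy', rfl⟩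
    rcases h2 with h2 | ⟨rfl, rfl⟩
    · have h3 : x1 ++ p ++ (t ++ y') = x1 ++ ((p ++ t) ++ y') := by simp
      rw [h3, ← kstar_mul_kstar]
      refine Language.mem_mul.2 ⟨x1, h1, (p ++ t) ++ y', ?_, rfl⟩
      rw [← Language.one_add_self_mul_kstar_eq_kstar]
      right
      exact Language.mem_mul.2 ⟨p ++ t, h2, y', hy', rfl⟩
    · have h3 : x1 ++ [] ++ ([] ++ y') = x1 ++ y' := by simp
      rw [h3, ← kstar_mul_kstar]
      exact Language.mem_mul.2 ⟨x1, h1, y', hy', rfl⟩

/-- The Kleene star of a finite language is regular. -/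
theorem isRegular_kstar {L : Language X} (hL : (L : Set (List X)).Finite) :
    (KStar.kstar L).IsRegular := by
  apply Language.IsRegular.of_finite_range_leftQuotient
  -- all remainders are suffixes of words of `L` or empty
  have hT : {t : List X | t = [] ∨ ∃ w ∈ L, t <:+ w}.Finite := by
    have h1 : {t : List X | t = [] ∨ ∃ w ∈ L, t <:+ w} ⊆
        {[]} ∪ ⋃ w ∈ (L : Set (List X)), {t | t <:+ w} := by
      rintro t (rfl | ⟨w, hw, ht⟩)
      · left; rfl
      · right
        exact Set.mem_biUnion hw ht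
    refine Set.Finite.subset ?_ h1
    refine (Set.finite_singleton _).union (hL.biUnion fun w _ => ?_)
    refine (List.finite_toSet w.tails).subset ?_
    intro t ht
    exact (List.mem_tails t w).2 ht
  have hsub : Set.range (KStar.kstar L).leftQuotient ⊆
      (fun T : Set (List X) => ({y | ∃ t ∈ T, ∃ y' ∈ KStar.kstar L, y = t ++ y'} : Language X)) ''
        {T | T ⊆ {t : List X | t = [] ∨ ∃ w ∈ L, t <:+ w}} := by
    rintro _ ⟨x, rfl⟩
    refine ⟨rest L x, ?_, (leftQuotient_eq L x).symm⟩
    rintro t ⟨x1, p, -, -, h | ⟨-, h⟩⟩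
    · exact Or.inr ⟨p ++ t, h, p, rfl⟩
    · exact Or.inl h
  exact (hT.finite_subsets.image _).subset hsub

/-- The nonempty words of a language. -/
def posPart (L : Language X) : Language X := {w | w ≠ [] ∧ w ∈ L}

/-- Removing the empty word from a regular language leaves a regular language. -/
theorem isRegular_posPart {L : Language X} (hL : L.IsRegular) : (posPart L).IsRegular := by
  have h1 : (KStar.kstar (0 : Language X)).IsRegular :=
    isRegular_kstar (L := (0 : Language X)) Set.finite_empty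
  have h2 : KStar.kstar (0 : Language X) = 1 := kstar_zero
  rw [h2] at h1
  have h3 := h1.compl.inf hL
  have h4 : posPart L = (1 : Language X)ᶜ ⊓ L := by
    ext w
    rfl
  rw [h4]
  exact h3

end Pool.Agent.Helper51.Sagbi
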