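import Pool.Agent.Helper51.Sagbi.Basic
import Pool.Agent.Helper51.Sagbi.Star

/-!
# Leading words of products, finite SAGBI bases

Helper file for MP_0d1f08_al.
-/

set_option autoImplicit false

namespace Pool.Agent.Helper51.Sagbi

open FreeAlgebra
open scoped Pointwise

variable {K : Type} [Field K] {X : Type}

lemma repr_eq (f : FreeAlgebra K X) (w : FreeMonoid X) :
    (basisFreeMonoid K X).repr f w = (equivMonoidAlgebraFreeMonoid f).coeff w := rfl

lemma supp_eq (f : FreeAlgebra K X) : supp f = (equivMonoidAlgebraFreeMonoid f).coeff.support := rfl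

/-- `r` is compatible with multiplication of words. -/
def Compat (r : FreeMonoid X → FreeMonoid X → Prop) : Prop :=
  ∀ u v a b : FreeMonoid X, r u v → r (a * u * b) (a * v * b)

lemma coeff_mul_eq (f g : FreeAlgebra K X) (u v : FreeMonoid X)
    (huniq : UniqueMul (equivMonoidAlgebraFreeMonoid f).coeff.support
      (equivMonoidAlgebraFreeMonoid g).coeff.support u v) :
    (basisFreeMonoid K X).repr (f * g) (u * v)
      = (basisFreeMonoid K X).repr f u * (basisFreeMonoid K X).repr g v := by
  rw [repr_eq (f * g) (u * v)]
  have h : equivMonoidAlgebraFreeMonoid (f * g)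
      = equivMonoidAlgebraFreeMonoid f * equivMonoidAlgebraFreeMonoid g :=
    map_mul (equivMonoidAlgebraFreeMonoid (R := K) (X := X)) f g
  rw [h]
  exact MonoidAlgebra.coeff_mul_mul_of_uniqueMul huniq

lemma supp_mul_subset [DecidableEq (FreeMonoid X)] (f g : FreeAlgebra K X) :
    supp (f * g) ⊆ supp f * supp g := by
  classical
  rw [supp_eq, supp_eq, supp_eq]
  have h : equivMonoidAlgebraFreeMonoid (f * g)
      = equivMonoidAlgebraFreeMonoid f * equivMonoidAlgebraFreeMonoid g :=
    map_mul (equivMonoidAlgebraFreeMonoid (R := K) (X := X)) f g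
  rw [h]
  convert MonoidAlgebra.support_coeff_mul_subset _ _

lemma isLead_mul {r : FreeMonoid X → FreeMonoid X → Prop} [IsWellOrder (FreeMonoid X) r]
    (hr : Compat r) {f g : FreeAlgebra K X} {u v : FreeMonoid X} (hf : IsLead r f u)
    (hg : IsLead r g v) : IsLead r (f * g) (u * v) := by
  classical
  have hle : ∀ a ∈ supp f, ∀ b ∈ supp g, a * b = u * v → a = u ∧ b = v := by
    intro a ha b hb hab
    by_cases h1 : a = u
    · subst h1
      exact ⟨rfl, mul_left_cancel hab⟩
    · exfalso
      have h2 : r (a * b) (u * b) := by
        have := hr a u 1 b (hf.2 a ha h1)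
        simpa using this
      by_cases h3 : b = v
      · subst h3
        rw [hab] at h2
        exact irrefl_of r _ h2
      · have h4 : r (u * b) (u * v) := by
          have := hr b v u 1 (hg.2 b hb h3)
          simpa using this
        rw [hab] at h2
        exact irrefl_of r _ (trans_of r h2 h4)
  have huniq : UniqueMul (equivMonoidAlgebraFreeMonoid f).coeff.support
      (equivMonoidAlgebraFreeMonoid g).coeff.support u v := by
    intro a b ha hb hab
    exact hle a ha b hb hab
  have hco := coeff_mul_eq f g u v huniq
  refine ⟨?_, ?_⟩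
  · rw [mem_supp, hco]
    exact mul_ne_zero (mem_supp.1 hf.1) (mem_supp.1 hg.1)
  · intro w hw hne
    have hsub : w ∈ (supp f) * (supp g) := supp_mul_subset f g hw
    obtain ⟨a, ha, b, hb, rfl⟩ := Finset.mem_mul.1 hsub
    by_cases h1 : a = u
    · subst h1
      have h3 : b ≠ v := fun h => hne (by rw [h])
      have := hr b v a 1 (hg.2 b hb h3)
      simpa using this
    · have h2 : r (a * b) (u * b) := by
        have := hr a u 1 b (hf.2 a ha h1)
        simpa using this
      by_cases h3 : b = v
      · subst h3
        exact h2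
      · have h4 : r (u * b) (u * v) := by
          have := hr b v u 1 (hg.2 b hb h3)
          simpa using this
        exact trans_of r h2 h4

/-- Nonempty products of leading words of elements of a subalgebra are leading words of elements of
the subalgebra. -/
lemma prod_mem_leads {r : FreeMonoid X → FreeMonoid X → Prop} [IsWellOrder (FreeMonoid X) r]
    (hr : Compat r) (A : NonUnitalSubalgebra K (FreeAlgebra K X)) :
    ∀ ws : List (List X), ws ≠ [] → (∀ w ∈ ws, w ∈ leads r (A : Set (FreeAlgebra K X))) →
      ws.flatten ∈ leads r (A : Set (FreeAlgebra K X)) := by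
  intro ws
  induction ws with
  | nil => intro h; exact absurd rfl h
  | cons w ws ih =>
    intro _ hws
    obtain ⟨a, ha, haw⟩ := hws w (by simp)
    by_cases h0 : ws = []
    · subst h0
      simpa using ⟨a, ha, haw⟩
    · obtain ⟨b, hb, hbw⟩ := ih h0 (fun v hv => hws v (by simp [hv]))
      exact ⟨a * b, A.mul_mem ha hb, isLead_mul hr haw hbw⟩

/-- If the leading words of a subalgebra are products of leading words of the elements of a finite
subset, then they form a regular language. -/
theorem isRegular_of_sagbi {r : FreeMonoid X → FreeMonoid X → Prop}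
    [IsWellOrder (FreeMonoid X) r] (hr : Compat r) (A : NonUnitalSubalgebra K (FreeAlgebra K X))
    (S : Finset (FreeAlgebra K X)) (hSA : ∀ s ∈ S, s ∈ A)
    (hone : [] ∉ leads r (A : Set (FreeAlgebra K X)))
    (hsag : ∀ w ∈ leads r (A : Set (FreeAlgebra K X)),
      w ∈ KStar.kstar (leads r (S : Set (FreeAlgebra K X)))) :
    (leads r (A : Set (FreeAlgebra K X))).IsRegular := by
  classical
  have hfin : ((leads r (S : Set (FreeAlgebra K X)) : Language X) : Set (List X)).Finite := by
    have h1 : {w : List X | w ∈ leads r (S : Set (FreeAlgebra K X))} ⊆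
        ⋃ s ∈ (S : Set (FreeAlgebra K X)), FreeMonoid.toList '' ((supp s : Finset _) : Set _) := by
      rintro w ⟨s, hs, hsw⟩
      exact Set.mem_biUnion hs ⟨FreeMonoid.ofList w, hsw.1, rfl⟩
    exact (S.finite_toSet.biUnion fun s _ => (Finset.finite_toSet _).image _).subset h1
  have heq : leads r (A : Set (FreeAlgebra K X))
      = posPart (KStar.kstar (leads r (S : Set (FreeAlgebra K X)))) := by
    ext w
    constructor
    · intro hw
      refine ⟨?_, hsag w hw⟩
      rintro rfl
      exact hone hw
    · rintro ⟨hne, hw⟩
      obtain ⟨ws, rfl, hws⟩ := Language.mem_kstar.1 hw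
      apply prod_mem_leads hr A
      · rintro rfl
        exact hne rfl
      · intro w hw
        obtain ⟨s, hs, hsw⟩ := hws w hw
        exact ⟨s, hSA s hs, hsw⟩
  rw [heq]
  exact isRegular_posPart (isRegular_kstar hfin)

end Pool.Agent.Helper51.Sagbi
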