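import Pool.Agent.Helper51.Sagbi.Fc

/-!
# Powers of the augmentation ideal

Helper file for MP_0d1f08_al.
-/

set_option autoImplicit false

namespace Pool.Agent.Helper51.Sagbi

open FreeAlgebra

variable {K : Type} [Field K] {n : ℕ}

/-- The non-unital free algebra `F`: the elements with zero constant term. -/
def augI (K : Type) [Field K] (n : ℕ) : Submodule K (FreeAlgebra K (Fin n)) :=
  LinearMap.ker (FreeAlgebra.lift K (0 : Fin n → K)).toLinearMap

lemma mem_augI {x : FreeAlgebra K (Fin n)} :
    x ∈ augI K n ↔ FreeAlgebra.lift K (0 : Fin n → K) x = 0 := by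
  simp [augI]

/-- Every element with zero constant term has a power in `I`. -/
def NilMod (I : TwoSidedIdeal (FreeAlgebra K (Fin n))) : Prop :=
  ∀ f : FreeAlgebra K (Fin n), FreeAlgebra.lift K (0 : Fin n → K) f = 0 → ∃ m : ℕ, 0 < m ∧ f ^ m ∈ I

section Module

variable {Q : Type} [AddCommGroup Q] [Module (FreeAlgebra K (Fin n)) Q]

/-- A module of finite length killed by an ideal with nil quotient is killed by a power of the
augmentation ideal. -/
theorem exists_pow_smul_eq_zero [IsArtinian (FreeAlgebra K (Fin n)) Q]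
    [IsNoetherian (FreeAlgebra K (Fin n)) Q] (I : TwoSidedIdeal (FreeAlgebra K (Fin n)))
    (hI : ∀ x ∈ I, ∀ y : Q, x • y = 0) (hnil : NilMod I)
    (N : Submodule (FreeAlgebra K (Fin n)) Q) :
    ∃ k : ℕ, ∀ f ∈ (augI K n) ^ k, ∀ y ∈ N, f • y = 0 := by
  induction N using WellFoundedLT.induction with
  | _ N ih =>
    by_cases hN : N = ⊥
    · refine ⟨0, fun f _ y hy => ?_⟩
      rw [hN, Submodule.mem_bot] at hy
      rw [hy, smul_zero]
    · -- a maximal proper submodule
      obtain ⟨M, hMN, hMmax⟩ := (wellFounded_gt (α := Submodule (FreeAlgebra K (Fin n)) Q)).has_min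
        {M | M < N} ⟨⊥, bot_lt_iff_ne_bot.2 hN⟩
      have hMN' : M < N := hMN
      have key : ∀ f ∈ augI K n, ∀ y ∈ N, f • y ∈ M := by
        intro f hf y hy
        by_contra hfy
        set M' := M ⊔ Submodule.span (FreeAlgebra K (Fin n)) {f • y} with hM'
        have h1 : M < M' := by
          refine lt_of_le_of_ne le_sup_left ?_
          intro h
          apply hfy
          rw [h, hM']
          exact Submodule.mem_sup_right (Submodule.mem_span_singleton_self _)
        have h2 : M' ≤ N := by
          refine sup_le hMN'.le ?_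
          rw [Submodule.span_singleton_le_iff_mem]
          exact N.smul_mem f hy
        have h3 : M' = N := by
          by_contra hne
          exact hMmax M' (lt_of_le_of_ne h2 hne) h1
        have h4 : y ∈ M' := by rw [h3]; exact hy
        obtain ⟨m, hm, x, hx, hmx⟩ := Submodule.mem_sup.1 h4
        obtain ⟨r, rfl⟩ := Submodule.mem_span_singleton.1 hx
        have hg : FreeAlgebra.lift K (0 : Fin n → K) (r * f) = 0 := by
          rw [map_mul, mem_augI.1 hf, mul_zero]
        obtain ⟨j, -, hj⟩ := hnil (r * f) hg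
        have h5 : ∀ i : ℕ, y - (r * f) ^ i • y ∈ M := by
          intro i
          induction i with
          | zero => simp
          | succ i ihi =>
            have h6 : y - (r * f) ^ (i + 1) • y = (y - (r * f) ^ i • y) + (r * f) ^ i • m := by
              have h7 : (r * f) ^ (i + 1) • y = (r * f) ^ i • (y - m) := by
                have h9 : (r * f) • y = y - m := by
                  rw [mul_smul]
                  exact eq_sub_of_add_eq' hmx
                rw [pow_succ, mul_smul, h9]
              rw [h7, smul_sub]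
              abel
            rw [h6]
            exact M.add_mem ihi (M.smul_mem _ hm)
        have h8 := h5 j
        rw [hI _ hj y, sub_zero] at h8
        exact hfy (M.smul_mem f h8)
      obtain ⟨k, hk⟩ := ih M hMN'
      refine ⟨k + 1, fun f hf y hy => ?_⟩
      rw [pow_succ] at hf
      induction hf using Submodule.mul_induction_on' with
      | mem_mul_mem a ha b hb => rw [mul_smul]; exact hk a ha _ (key b hb y hy)
      | add a _ b _ h1 h2 => rw [add_smul, h1, h2, add_zero]

end Module

/-- A left ideal of finite codimension containing an ideal with nil quotient contains a power of the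
augmentation ideal. -/
theorem exists_pow_le {L : Submodule (FreeAlgebra K (Fin n)) (FreeAlgebra K (Fin n))}
    (hL : FinCodim (L : Set (FreeAlgebra K (Fin n)))) (I : TwoSidedIdeal (FreeAlgebra K (Fin n)))
    (hIL : ∀ x ∈ I, x ∈ L) (hnil : NilMod I) :
    ∃ k : ℕ, ∀ f ∈ (augI K n) ^ k, f ∈ L := by
  obtain ⟨V, hV, hVx⟩ := hL
  have hfin : Module.Finite K ((FreeAlgebra K (Fin n)) ⧸ L) := by
    let φ : V →ₗ[K] ((FreeAlgebra K (Fin n)) ⧸ L) :=
      (L.mkQ.restrictScalars K) ∘ₗ V.subtype
    refine Module.Finite.of_surjective φ ?_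
    intro q
    obtain ⟨x, rfl⟩ := L.mkQ_surjective q
    obtain ⟨a, ha, v, hv, rfl⟩ := hVx x
    refine ⟨⟨v, hv⟩, ?_⟩
    simp only [φ, LinearMap.comp_apply, Submodule.subtype_apply, LinearMap.restrictScalars_apply]
    rw [map_add, (Submodule.Quotient.mk_eq_zero L).2 ha |> (fun h => show L.mkQ a = 0 from h), zero_add]
  have h1 : IsNoetherian K ((FreeAlgebra K (Fin n)) ⧸ L) := inferInstance
  have h2 : IsArtinian K ((FreeAlgebra K (Fin n)) ⧸ L) := inferInstance
  have h3 : IsNoetherian (FreeAlgebra K (Fin n)) ((FreeAlgebra K (Fin n)) ⧸ L) :=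
    isNoetherian_of_tower K h1
  have h4 : IsArtinian (FreeAlgebra K (Fin n)) ((FreeAlgebra K (Fin n)) ⧸ L) :=
    isArtinian_of_tower K h2
  obtain ⟨k, hk⟩ := exists_pow_smul_eq_zero (Q := (FreeAlgebra K (Fin n)) ⧸ L) I (by
    intro x hx y
    obtain ⟨y, rfl⟩ := L.mkQ_surjective y
    rw [← map_smul]
    exact (Submodule.Quotient.mk_eq_zero L).2 (hIL _ (I.mul_mem_right _ _ hx))) hnil ⊤
  refine ⟨k, fun f hf => ?_⟩
  have h5 := hk f hf (L.mkQ 1) trivial
  rw [← map_smul, smul_eq_mul, mul_one] at h5
  exact (Submodule.Quotient.mk_eq_zero L).1 h5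

end Pool.Agent.Helper51.Sagbi
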